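import Mathlib

/-!
# The Alon–Tarsi number
-/

set_option autoImplicit false

namespace Pool.Agent.H697R2.AT

variable {V : Type} [Fintype V] [DecidableEq V]

/-- The set of arcs `D` is an orientation of `G`: every arc of `D` is an edge of `G`, and every
edge of `G` has exactly one of its two directions in `D`. -/
def IsOrientation (G : SimpleGraph V) (D : Finset (V × V)) : Prop :=
  (∀ a ∈ D, G.Adj a.1 a.2) ∧ ∀ u v, G.Adj u v → ((u, v) ∈ D ↔ (v, u) ∉ D)

/-- The out-degree of `v`. -/
def outDeg (D : Finset (V × V)) (v : V) : ℕ := (D.filter (fun a => a.1 = v)).card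

/-- The in-degree of `v`. -/
def inDeg (D : Finset (V × V)) (v : V) : ℕ := (D.filter (fun a => a.2 = v)).card

/-- Every vertex has the same in-degree and out-degree in `F`. -/
def IsEulerian (F : Finset (V × V)) : Prop := ∀ v, inDeg F v = outDeg F v

open Classical in
/-- The number of even spanning Eulerian subgraphs of `D`. -/
noncomputable def EE (D : Finset (V × V)) : ℕ :=
  (D.powerset.filter (fun F => IsEulerian F ∧ Even F.card)).card

open Classical in
/-- The number of odd spanning Eulerian subgraphs of `D`. -/
noncomputable def EO (D : Finset (V × V)) : ℕ :=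
  (D.powerset.filter (fun F => IsEulerian F ∧ Odd F.card)).card

/-- `D` is an orientation of `G` with different numbers of even and odd spanning Eulerian
subgraphs, and all the out-degrees are at most `k - 1`. -/
def Good (G : SimpleGraph V) (k : ℕ) (D : Finset (V × V)) : Prop :=
  IsOrientation G D ∧ EE D ≠ EO D ∧ ∀ v, outDeg D v + 1 ≤ k

/-- The Alon–Tarsi number: the least `k` such that some orientation of `G` has different numbers
of even and odd spanning Eulerian subgraphs and all its out-degrees are at most `k - 1`. -/
noncomputable def ATnum (G : SimpleGraph V) : ℕ := sInf {k | ∃ D, Good G k D}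

end Pool.Agent.H697R2.AT
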