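import Pool.Agent.H697R2.AT.Net3

/-!
# The network of a 3CNF formula
-/

set_option autoImplicit false

namespace Pool.Agent.H697R2.AT

open Finset

section

variable (κ m : ℕ) [NeZero (m * 3)] (lit : Fin (m * 3) → Bool × Fin (m * 3))

/-- positions and variables -/
abbrev Po (m : ℕ) : Type := Fin (m * 3)

/-- nodes: (variable, position) -/
abbrev TT (m : ℕ) : Type := Po m × Po m

/-- plain vertices: links, non-occurrences, clauses -/
abbrev PP (m : ℕ) : Type := TT m ⊕ (TT m ⊕ (Fin m × Fin 3))

abbrev SL (m : ℕ) : Type := Fin m × Fin 3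

/-- the clause vertex taking the literal at position `p` -/
def gv (p : Po m) : Fin m × Fin 3 := (p.divNat, if p.modNat = 2 then 2 else 1)

/-- the clause vertex taking the complement of the literal -/
def cv (p : Po m) : Fin m × Fin 3 := (p.divNat, 0)

/-- the network -/
def net : Net (TT m) (PP m) (SL m) where
  κ := κ
  α1 r := Sum.inl (r.1, r.2)
  β1 r := Sum.inl (r.1, r.2 + 1)
  α2 r := if (lit r.2).2 = r.1 then
      Sum.inr (Sum.inr (if (lit r.2).1 then gv m r.2 else cv m r.2))
    else Sum.inr (Sum.inl r)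
  β2 r := if (lit r.2).2 = r.1 then
      Sum.inr (Sum.inr (if (lit r.2).1 then cv m r.2 else gv m r.2))
    else Sum.inr (Sum.inl r)
  γ1 s := Sum.inr (Sum.inr (s.1, ![0, 0, 1] s.2))
  γ2 s := Sum.inr (Sum.inr (s.1, ![1, 2, 2] s.2))
  τ
    | Sum.inl _ => 1
    | Sum.inr (Sum.inl r) => if (lit r.2).2 = r.1 then 0 else 1
    | Sum.inr (Sum.inr _) => 2

theorem net_ok (hκ : 2 ≤ κ) : (net κ m lit).OK where
  hκ := hκ
  hα := by
    intro r
    simp only [net]
    split_ifs <;> simp
  hγ := by
    rintro ⟨j, i⟩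
    fin_cases i <;> simp [net]
  hτ := by
    intro p
    rcases p with r | r | c
    · show 1 ≤ κ
      omega
    · show (if (lit r.2).2 = r.1 then 0 else 1) ≤ κ
      split_ifs <;> omega
    · exact hκ
  tight := by
    rw [Fintype.sum_sum_type, Fintype.sum_sum_type]
    have h1 : ∑ r : TT m, (net κ m lit).τ (Sum.inl r) = m * 3 * (m * 3) := by
      simp [net]
    have h2 : (∑ r : TT m, (net κ m lit).τ (Sum.inr (Sum.inl r))) + m * 3 =
        m * 3 * (m * 3) := by
      have h3 : ∑ r : TT m, (if (lit r.2).2 = r.1 then 1 else 0) = m * 3 := by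
        rw [Fintype.sum_prod_type, Finset.sum_comm]
        simp
      have h4 : (∑ r : TT m, (net κ m lit).τ (Sum.inr (Sum.inl r))) +
          ∑ r : TT m, (if (lit r.2).2 = r.1 then 1 else 0) = m * 3 * (m * 3) := by
        rw [← Finset.sum_add_distrib]
        have : ∀ r : TT m, (net κ m lit).τ (Sum.inr (Sum.inl r)) +
            (if (lit r.2).2 = r.1 then 1 else 0) = 1 := by
          intro r
          simp only [net]
          split_ifs <;> rfl
        rw [Finset.sum_congr rfl fun r _ => this r]
        simp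
      rw [h3] at h4
      exact h4
    have h5 : ∑ c : Fin m × Fin 3, (net κ m lit).τ (Sum.inr (Sum.inr c)) = m * 3 * 2 := by
      simp [net]
    rw [h1, h5]
    simp only [TT, SL, Fintype.card_prod, Fintype.card_fin]
    change m * 3 * (m * 3) + ((∑ r : TT m, (net κ m lit).τ (Sum.inr (Sum.inl r))) + m * 3 * 2) = _
    omega

/-- value of the literal -/
def lv (z : TT m → Bool) (p : Po m) : Bool :=
  if (lit p).1 then z ((lit p).2, p) else !z ((lit p).2, p)

/-- equation at the link vertices -/
theorem eq_link (z : TT m → Bool) (q : SL m → Bool) (v p : Po m) :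
    ((∑ r, (bz (z r) * (if (net κ m lit).α1 r = Sum.inl (v, p + 1) then 1 else 0) +
        bz (z r) * (if (net κ m lit).α2 r = Sum.inl (v, p + 1) then 1 else 0) +
        bz (!z r) * (if (net κ m lit).β1 r = Sum.inl (v, p + 1) then 1 else 0) +
        bz (!z r) * (if (net κ m lit).β2 r = Sum.inl (v, p + 1) then 1 else 0))) +
      (∑ s, (bz (q s) * (if (net κ m lit).γ1 s = Sum.inl (v, p + 1) then 1 else 0) +
        bz (!q s) * (if (net κ m lit).γ2 s = Sum.inl (v, p + 1) then 1 else 0)))) =
      bz (z (v, p + 1)) + bz (!z (v, p)) := by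
  have h1 : ∀ r : TT m, (net κ m lit).α1 r = Sum.inl (v, p + 1) ↔ r = (v, p + 1) := by
    intro r
    simp only [net]
    exact Sum.inl_injective.eq_iff
  have h2 : ∀ r : TT m, ¬ (net κ m lit).α2 r = Sum.inl (v, p + 1) := by
    intro r
    simp only [net]
    split_ifs <;> simp
  have h3 : ∀ r : TT m, (net κ m lit).β1 r = Sum.inl (v, p + 1) ↔ r = (v, p) := by
    intro r
    simp only [net, Sum.inl.injEq, Prod.mk.injEq, add_left_inj]
    constructor
    · rintro ⟨e1, e2⟩
      exact Prod.ext e1 e2
    · rintro rfl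
      exact ⟨rfl, rfl⟩
  have h4 : ∀ r : TT m, ¬ (net κ m lit).β2 r = Sum.inl (v, p + 1) := by
    intro r
    simp only [net]
    split_ifs <;> simp
  have h5 : ∀ s : SL m, ¬ (net κ m lit).γ1 s = Sum.inl (v, p + 1) := by
    intro s
    simp [net]
  have h6 : ∀ s : SL m, ¬ (net κ m lit).γ2 s = Sum.inl (v, p + 1) := by
    intro s
    simp [net]
  simp only [h1, h2, h3, h4, h5, h6, if_false, mul_zero, add_zero, Finset.sum_add_distrib]
  simp

theorem eq_non (z : TT m → Bool) (q : SL m → Bool) (r0 : TT m) :
    ((∑ r, (bz (z r) * (if (net κ m lit).α1 r = Sum.inr (Sum.inl r0) then 1 else 0) +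
        bz (z r) * (if (net κ m lit).α2 r = Sum.inr (Sum.inl r0) then 1 else 0) +
        bz (!z r) * (if (net κ m lit).β1 r = Sum.inr (Sum.inl r0) then 1 else 0) +
        bz (!z r) * (if (net κ m lit).β2 r = Sum.inr (Sum.inl r0) then 1 else 0))) +
      (∑ s, (bz (q s) * (if (net κ m lit).γ1 s = Sum.inr (Sum.inl r0) then 1 else 0) +
        bz (!q s) * (if (net κ m lit).γ2 s = Sum.inr (Sum.inl r0) then 1 else 0)))) =
      if (lit r0.2).2 = r0.1 then 0 else 1 := by
  have h1 : ∀ r : TT m, ¬ (net κ m lit).α1 r = Sum.inr (Sum.inl r0) := by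
    intro r
    simp [net]
  have h2 : ∀ r : TT m, (net κ m lit).α2 r = Sum.inr (Sum.inl r0) ↔
      (r = r0 ∧ ¬ (lit r0.2).2 = r0.1) := by
    intro r
    by_cases h : (lit r.2).2 = r.1
    · simp only [net, if_pos h]
      constructor
      · intro hh
        simp at hh
      · rintro ⟨rfl, h'⟩
        exact absurd h h'
    · simp only [net, if_neg h]
      constructor
      · intro hh
        obtain rfl : r = r0 := by simpa using hh
        exact ⟨rfl, h⟩
      · rintro ⟨rfl, _⟩
        rfl
  have h3 : ∀ r : TT m, ¬ (net κ m lit).β1 r = Sum.inr (Sum.inl r0) := by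
    intro r
    simp [net]
  have h4 : ∀ r : TT m, (net κ m lit).β2 r = Sum.inr (Sum.inl r0) ↔
      (r = r0 ∧ ¬ (lit r0.2).2 = r0.1) := by
    intro r
    by_cases h : (lit r.2).2 = r.1
    · simp only [net, if_pos h]
      constructor
      · intro hh
        simp at hh
      · rintro ⟨rfl, h'⟩
        exact absurd h h'
    · simp only [net, if_neg h]
      constructor
      · intro hh
        obtain rfl : r = r0 := by simpa using hh
        exact ⟨rfl, h⟩
      · rintro ⟨rfl, _⟩
        rfl
  have h5 : ∀ s : SL m, ¬ (net κ m lit).γ1 s = Sum.inr (Sum.inl r0) := by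
    intro s
    simp [net]
  have h6 : ∀ s : SL m, ¬ (net κ m lit).γ2 s = Sum.inr (Sum.inl r0) := by
    intro s
    simp [net]
  simp only [h1, h2, h3, h4, h5, h6, if_false, mul_zero, add_zero, zero_add,
    Finset.sum_add_distrib, Finset.sum_const_zero]
  by_cases h : (lit r0.2).2 = r0.1
  · simp [h]
  · simp [h, bz_add_not]

/-- equation at the clause vertices -/
theorem eq_cl (z : TT m → Bool) (q : SL m → Bool) (c : Fin m × Fin 3) :
    ((∑ r, (bz (z r) * (if (net κ m lit).α1 r = Sum.inr (Sum.inr c) then 1 else 0) +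
        bz (z r) * (if (net κ m lit).α2 r = Sum.inr (Sum.inr c) then 1 else 0) +
        bz (!z r) * (if (net κ m lit).β1 r = Sum.inr (Sum.inr c) then 1 else 0) +
        bz (!z r) * (if (net κ m lit).β2 r = Sum.inr (Sum.inr c) then 1 else 0))) +
      (∑ s, (bz (q s) * (if (net κ m lit).γ1 s = Sum.inr (Sum.inr c) then 1 else 0) +
        bz (!q s) * (if (net κ m lit).γ2 s = Sum.inr (Sum.inr c) then 1 else 0)))) =
      (∑ p : Po m, (bz (lv m lit z p) * (if gv m p = c then 1 else 0) +
        bz (!lv m lit z p) * (if cv m p = c then 1 else 0))) +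
      (∑ i : Fin 3, (bz (q (c.1, i)) * (if (![0, 0, 1] : Fin 3 → Fin 3) i = c.2 then 1 else 0) +
        bz (!q (c.1, i)) * (if (![1, 2, 2] : Fin 3 → Fin 3) i = c.2 then 1 else 0))) := by
  have h1 : ∀ r : TT m, ¬ (net κ m lit).α1 r = Sum.inr (Sum.inr c) := by
    intro r
    simp [net]
  have h3 : ∀ r : TT m, ¬ (net κ m lit).β1 r = Sum.inr (Sum.inr c) := by
    intro r
    simp [net]
  simp only [h1, h3, if_false, mul_zero, add_zero, zero_add]
  congr 1
  · rw [Fintype.sum_prod_type, Finset.sum_comm]
    refine Finset.sum_congr rfl fun p _ => ?_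
    rw [Finset.sum_eq_single (lit p).2]
    · simp only [net, if_true, Sum.inr.injEq]
      unfold lv
      cases (lit p).1 <;> cases z ((lit p).2, p) <;> simp [bz]
    · intro v _ hv
      have : ¬ (lit p).2 = v := fun h => hv h.symm
      simp [net, this]
    · simp
  · rw [Fintype.sum_prod_type, Finset.sum_eq_single c.1]
    · refine Finset.sum_congr rfl fun i _ => ?_
      have e1 : (net κ m lit).γ1 (c.1, i) = Sum.inr (Sum.inr c) ↔
          (![0, 0, 1] : Fin 3 → Fin 3) i = c.2 := by
        simp only [net, Sum.inr.injEq]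
        constructor
        · intro h
          rw [← h]
        · intro h
          rw [h]
      have e2 : (net κ m lit).γ2 (c.1, i) = Sum.inr (Sum.inr c) ↔
          (![1, 2, 2] : Fin 3 → Fin 3) i = c.2 := by
        simp only [net, Sum.inr.injEq]
        constructor
        · intro h
          rw [← h]
        · intro h
          rw [h]
      simp only [e1, e2]
    · intro j _ hj
      have e1 : ∀ i, ¬ (net κ m lit).γ1 (j, i) = Sum.inr (Sum.inr c) := by
        intro i
        simp only [net, Sum.inr.injEq]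
        intro h
        exact hj (congrArg Prod.fst h)
      have e2 : ∀ i, ¬ (net κ m lit).γ2 (j, i) = Sum.inr (Sum.inr c) := by
        intro i
        simp only [net, Sum.inr.injEq]
        intro h
        exact hj (congrArg Prod.fst h)
      simp [e1, e2]
    · simp

/-- the positions of a clause -/
def pos (j : Fin m) (i : Fin 3) : Po m := finProdFinEquiv (j, i)

theorem divNat_pos (j : Fin m) (i : Fin 3) : (pos m j i).divNat = j :=
  congrArg Prod.fst (finProdFinEquiv.symm_apply_apply (j, i))

theorem modNat_pos (j : Fin m) (i : Fin 3) : (pos m j i).modNat = i :=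
  congrArg Prod.snd (finProdFinEquiv.symm_apply_apply (j, i))

/-- the clause equation in terms of the three literals -/
theorem eq_cl2 (z : TT m → Bool) (j : Fin m) (k : Fin 3) :
    (∑ p : Po m, (bz (lv m lit z p) * (if gv m p = (j, k) then 1 else 0) +
        bz (!lv m lit z p) * (if cv m p = (j, k) then 1 else 0))) =
      ∑ i : Fin 3, (bz (lv m lit z (pos m j i)) *
        (if (if i = 2 then 2 else 1 : Fin 3) = k then 1 else 0) +
        bz (!lv m lit z (pos m j i)) * (if 0 = k then 1 else 0)) := by
  rw [← finProdFinEquiv.sum_comp, Fintype.sum_prod_type, Finset.sum_eq_single j]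
  · refine Finset.sum_congr rfl fun i _ => ?_
    have e1 : gv m (finProdFinEquiv (j, i)) = (j, if i = 2 then 2 else 1) := by
      unfold gv
      rw [show finProdFinEquiv (j, i) = pos m j i from rfl, divNat_pos, modNat_pos]
    have e2 : cv m (finProdFinEquiv (j, i)) = (j, 0) := by
      unfold cv
      rw [show finProdFinEquiv (j, i) = pos m j i from rfl, divNat_pos]
    rw [e1, e2]
    simp only [Prod.mk.injEq, true_and]
    rfl
  · intro j' _ hj
    refine Finset.sum_eq_zero fun i _ => ?_
    have e1 : gv m (finProdFinEquiv (j', i)) = (j', if i = 2 then 2 else 1) := by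
      unfold gv
      rw [show finProdFinEquiv (j', i) = pos m j' i from rfl, divNat_pos, modNat_pos]
    have e2 : cv m (finProdFinEquiv (j', i)) = (j', 0) := by
      unfold cv
      rw [show finProdFinEquiv (j', i) = pos m j' i from rfl, divNat_pos]
    rw [e1, e2]
    simp [hj]
  · simp

theorem bool_fact (l0 l1 l2 : Bool) :
    (∃ q0 q1 q2 : Bool, bz (!l0) + bz (!l1) + bz (!l2) + bz q0 + bz q1 = 2 ∧
      bz l0 + bz l1 + bz (!q0) + bz q2 = 2 ∧ bz l2 + bz (!q1) + bz (!q2) = 2) ↔
      (l0 = true ∨ l1 = true ∨ l2 = true) := by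
  cases l0 <;> cases l1 <;> cases l2 <;> decide

theorem const_of_succ {n : ℕ} (f : Fin (n + 1) → Bool) (h : ∀ p, f (p + 1) = f p) (p) :
    f p = f 0 := by
  induction p using Fin.induction with
  | zero => rfl
  | succ i ih =>
    rw [← Fin.coeSucc_eq_succ, h, ih]

theorem const_row {n : ℕ} [NeZero n] (f : Fin n → Bool) (h : ∀ p, f (p + 1) = f p) (p p') :
    f p = f p' := by
  obtain ⟨k, rfl⟩ : ∃ k, n = k + 1 := ⟨n - 1, by have := NeZero.ne n; omega⟩
  rw [const_of_succ f (fun p => by convert h p) p, const_of_succ f (fun p => by convert h p) p']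

/-- solutions and satisfying assignments -/
theorem sol_iff : (∃ z q, (net κ m lit).Sol z q) ↔
    ∃ σ : Po m → Bool, ∀ j : Fin m, ∃ i : Fin 3, σ (lit (pos m j i)).2 = (lit (pos m j i)).1 := by
  constructor
  · rintro ⟨z, q, hs⟩
    have hrow : ∀ v p, z (v, p + 1) = z (v, p) := by
      intro v p
      have h1 := hs (Sum.inl (v, p + 1))
      rw [eq_link] at h1
      have h2 : (net κ m lit).τ (Sum.inl (v, p + 1)) = 1 := rfl
      rw [h2] at h1
      revert h1
      cases z (v, p + 1) <;> cases z (v, p) <;> decide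
    have hconst : ∀ v p, z (v, p) = z (v, 0) := fun v p =>
      const_row (fun p => z (v, p)) (hrow v) p 0
    refine ⟨fun v => z (v, 0), fun j => ?_⟩
    have hc := hs (Sum.inr (Sum.inr (j, 0)))
    rw [eq_cl, eq_cl2] at hc
    have h2 : (net κ m lit).τ (Sum.inr (Sum.inr (j, 0))) = 2 := rfl
    rw [h2] at hc
    simp only [Fin.sum_univ_three] at hc
    simp at hc
    have : lv m lit z (pos m j 0) = true ∨ lv m lit z (pos m j 1) = true ∨
        lv m lit z (pos m j 2) = true := by
      by_contra hcon
      push Not at hcon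
      obtain ⟨a, b, c⟩ := hcon
      simp only [ne_eq, Bool.not_eq_true] at a b c
      rw [a, b, c] at hc
      simp [bz] at hc
      omega
    have h3 : ∀ i, lv m lit z (pos m j i) = true →
        z ((lit (pos m j i)).2, 0) = (lit (pos m j i)).1 := by
      intro i hi
      unfold lv at hi
      rw [hconst] at hi
      cases hb : (lit (pos m j i)).1
      · rw [hb] at hi
        simpa using hi
      · rw [hb] at hi
        simpa using hi
    rcases this with h | h | h
    · exact ⟨0, h3 0 h⟩
    · exact ⟨1, h3 1 h⟩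
    · exact ⟨2, h3 2 h⟩
  · rintro ⟨σ, hσ⟩
    let z : TT m → Bool := fun r => σ r.1
    have hlv : ∀ p, lv m lit z p = true ↔ σ (lit p).2 = (lit p).1 := by
      intro p
      unfold lv
      cases hb : (lit p).1 <;> simp [z]
    have h1 : ∀ j : Fin m, ∃ q0 q1 q2 : Bool,
        bz (!lv m lit z (pos m j 0)) + bz (!lv m lit z (pos m j 1)) +
          bz (!lv m lit z (pos m j 2)) + bz q0 + bz q1 = 2 ∧
        bz (lv m lit z (pos m j 0)) + bz (lv m lit z (pos m j 1)) + bz (!q0) + bz q2 = 2 ∧
        bz (lv m lit z (pos m j 2)) + bz (!q1) + bz (!q2) = 2 := by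
      intro j
      rw [bool_fact]
      obtain ⟨i, hi⟩ := hσ j
      rw [← hlv] at hi
      fin_cases i
      · exact Or.inl hi
      · exact Or.inr (Or.inl hi)
      · exact Or.inr (Or.inr hi)
    choose q0 q1 q2 hq using h1
    refine ⟨z, fun s => ![q0 s.1, q1 s.1, q2 s.1] s.2, ?_⟩
    intro p
    rcases p with ⟨v, p⟩ | r | ⟨j, k⟩
    · obtain ⟨p, rfl⟩ : ∃ p', p = p' + 1 := ⟨p - 1, by simp⟩
      rw [eq_link]
      show _ = 1
      simp only [z]
      cases σ v <;> rfl
    · rw [eq_non]
      rfl
    · rw [eq_cl, eq_cl2]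
      show _ = 2
      obtain ⟨a, b, c⟩ := hq j
      simp only [Fin.sum_univ_three]
      fin_cases k
      · simp
        omega
      · simp
        omega
      · simp
        omega

end

end Pool.Agent.H697R2.AT
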