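import Pool.Agent.H697R2.AT.Lab
import Pool.Agent.NPC.Sat2

/-!
# The graph of a formula
-/

set_option autoImplicit false

namespace Pool.Agent.H697R2.AT

open Finset Pool.Agent.NPC Pool.Agent.NPC.R671

/-- adjacency of labels -/
def adL (E : List (Lb × Lb)) (x y : Lb) : Bool :=
  !decide (x = y) && (decide ((x, y) ∈ E) || decide ((y, x) ∈ E))

theorem adL_symm (E : List (Lb × Lb)) (x y : Lb) : adL E x y = adL E y x := by
  unfold adL
  rw [Bool.or_comm]
  congr 2
  rw [decide_eq_decide]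
  exact eq_comm

theorem adL_irrefl (E : List (Lb × Lb)) (x : Lb) : adL E x x = false := by
  simp [adL]

/-- the graph -/
def gr (vs : List Lb) (E : List (Lb × Lb)) : SimpleGraph (Fin vs.length) :=
  listGraph vs (adL E) (adL_symm E) (adL_irrefl E)

theorem out_equiv {V W E : Type} [Fintype V] [DecidableEq V] [Fintype W] [DecidableEq W]
    [Fintype E] [DecidableEq E] (s t : E → V) (e : W ≃ V) (x : E → Bool) (w : W) :
    out (e.symm ∘ s) (e.symm ∘ t) x w = out s t x (e w) := by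
  unfold out
  refine Finset.sum_congr rfl fun a _ => ?_
  simp only [Function.comp, Equiv.symm_apply_eq]

theorem SS_equiv {V W E : Type} [Fintype V] [DecidableEq V] [Fintype W] [DecidableEq W]
    [Fintype E] [DecidableEq E] (s t : E → V) (e : W ≃ V) (d : V → ℕ) :
    SS (e.symm ∘ s) (e.symm ∘ t) (d ∘ e) = SS s t d := by
  unfold SS
  refine Finset.sum_congr rfl fun x _ => ?_
  have : out (e.symm ∘ s) (e.symm ∘ t) x = d ∘ e ↔ out s t x = d := by
    constructor
    · intro h
      funext v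
      have h1 := congrFun h (e.symm v)
      rw [out_equiv] at h1
      simpa using h1
    · intro h
      funext w
      rw [out_equiv, h]
      rfl
  simp only [this]

section

theorem good_of_equiv {T P S : Type} [Fintype T] [DecidableEq T] [Fintype P] [DecidableEq P]
    [Fintype S] [DecidableEq S] (N : Net T P S) (hok : N.OK) {n : ℕ}
    (e : Fin n ≃ VV T P S N.κ) (G : SimpleGraph (Fin n))
    (hRep : Rep G (e.symm ∘ N.src) (e.symm ∘ N.tgt)) :
    (∃ D, Good G (N.κ + 1) D) ↔ ∃ z q, N.Sol z q := by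
  have hsimple := Net.simple hok
  have hs' : Simple (e.symm ∘ N.src) (e.symm ∘ N.tgt) := by
    refine ⟨?_, ?_, ?_⟩
    · intro a h
      exact hsimple.ne a (e.symm.injective h)
    · intro a b h1 h2
      exact hsimple.inj1 a b (e.symm.injective h1) (e.symm.injective h2)
    · intro a b h1 h2
      exact hsimple.inj2 a b (e.symm.injective h1) (e.symm.injective h2)
  rw [good_iff hs' hRep, ← Net.main hok]
  constructor
  · rintro ⟨d, h1, h2⟩
    refine ⟨d ∘ e.symm, fun v => ?_, ?_⟩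
    · have := h1 (e.symm v)
      simp only [Function.comp]
      omega
    · have h4 := SS_equiv N.src N.tgt e (d ∘ e.symm)
      have h5 : (d ∘ e.symm) ∘ e = d := by
        funext w
        simp
      rw [h5] at h4
      rw [← h4]
      exact h2
  · rintro ⟨d, h1, h2⟩
    refine ⟨d ∘ e, fun v => ?_, ?_⟩
    · have := h1 (e v)
      simp only [Function.comp]
      omega
    · rw [SS_equiv N.src N.tgt e d]
      exact h2

variable (κ m : ℕ) [NeZero (m * 3)] (lit : Fin (m * 3) → Bool × Fin (m * 3))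
  (Lf : ℕ → Bool × ℕ)

theorem good_gr (hκ : 2 ≤ κ) (hL : ∀ p : Fin (m * 3), Lf p = ((lit p).1, ((lit p).2 : ℕ))) :
    (∃ D, Good (gr (vlist κ m) (edgeList κ m Lf)) (κ + 1) D) ↔
      ∃ σ : Po m → Bool, ∀ j : Fin m, ∃ i : Fin 3,
        σ (lit (pos m j i)).2 = (lit (pos m j i)).1 := by
  classical
  obtain ⟨e, he⟩ := exists_equiv (vlist κ m) (vlist_nodup κ m) (lab m κ) (lab_inj m κ)
    (mem_vlist κ m)
  have hok := net_ok κ m lit hκ
  rw [← sol_iff κ m lit]
  refine good_of_equiv (net κ m lit) hok e _ ?_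
  intro u v
  have hsimple := Net.simple hok
  have h1 : (gr (vlist κ m) (edgeList κ m Lf)).Adj u v ↔
      adL (edgeList κ m Lf) (lab m κ (e u)) (lab m κ (e v)) = true := by
    rw [he u, he v]
    rfl
  rw [h1]
  unfold adL
  simp only [Bool.and_eq_true, Bool.or_eq_true, decide_eq_true_eq, Bool.not_eq_true',
    decide_eq_false_iff_not]
  rw [mem_edgeList κ m lit Lf hκ hL, mem_edgeList κ m lit Lf hκ hL]
  have key : ∀ a u v, ((lab m κ ((net κ m lit).src a), lab m κ ((net κ m lit).tgt a)) =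
      (lab m κ (e u), lab m κ (e v))) ↔
      ((e.symm ∘ (net κ m lit).src) a = u ∧ (e.symm ∘ (net κ m lit).tgt) a = v) := by
    intro a u v
    rw [Prod.mk.injEq, (lab_inj m κ).eq_iff, (lab_inj m κ).eq_iff]
    simp only [Function.comp]
    constructor
    · rintro ⟨h1, h2⟩
      exact ⟨e.symm_apply_eq.2 h1, e.symm_apply_eq.2 h2⟩
    · rintro ⟨h1, h2⟩
      exact ⟨e.symm_apply_eq.1 h1, e.symm_apply_eq.1 h2⟩
  simp only [key]
  constructor
  · rintro ⟨_, ⟨a, h2⟩ | ⟨a, h2⟩⟩
    · exact ⟨a, Or.inl h2⟩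
    · exact ⟨a, Or.inr h2⟩
  · rintro ⟨a, ⟨h2, h3⟩ | ⟨h2, h3⟩⟩
    · refine ⟨fun hh => hsimple.ne a ?_, Or.inl ⟨a, h2, h3⟩⟩
      have h4 : u = v := e.injective (lab_inj m κ hh)
      rw [← h3, ← h2] at h4
      exact e.symm.injective h4
    · refine ⟨fun hh => hsimple.ne a ?_, Or.inr ⟨a, h2, h3⟩⟩
      have h4 : u = v := e.injective (lab_inj m κ hh)
      rw [← h3, ← h2] at h4
      exact e.symm.injective h4.symm

end

/-! ### Formulas -/

/-- the literals of a formula -/
def flat (φ : List (Lit ℕ × Lit ℕ × Lit ℕ)) : List (Lit ℕ) :=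
  φ.flatMap (fun c => [c.1, c.2.1, c.2.2])

theorem flat_getD (φ : List (Lit ℕ × Lit ℕ × Lit ℕ)) (j : ℕ) (hj : j < φ.length) (i : Fin 3) :
    (flat φ).getD (i + 3 * j) (false, 0) = ![(φ[j]).1, (φ[j]).2.1, (φ[j]).2.2] i := by
  induction φ generalizing j with
  | nil => simp at hj
  | cons c φ ih =>
    have e : flat (c :: φ) = c.1 :: c.2.1 :: c.2.2 :: flat φ := rfl
    rw [e]
    cases j with
    | zero =>
      fin_cases i <;> rfl
    | succ j =>
      have h1 := ih j (by simpa using hj)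
      have h2 : (i : ℕ) + 3 * (j + 1) = (i + 3 * j) + 1 + 1 + 1 := by ring
      rw [h2, List.getD_cons_succ, List.getD_cons_succ, List.getD_cons_succ, h1]
      simp

/-- the literal at a position -/
def Lfun (L : List (Lit ℕ)) (p : ℕ) : Bool × ℕ := L.getD p (false, 0)

/-- the graph of a formula -/
def grF (κ : ℕ) (φ : List (Lit ℕ × Lit ℕ × Lit ℕ)) :
    SimpleGraph (Fin (vlist κ φ.length).length) :=
  gr (vlist κ φ.length) (edgeList κ φ.length (Lfun (flat φ)))

theorem good_grF (κ : ℕ) (hκ : 2 ≤ κ) (φ : List (Lit ℕ × Lit ℕ × Lit ℕ)) (hb : Bounded3 φ)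
    (hne : φ ≠ []) : (∃ D, Good (grF κ φ) (κ + 1) D) ↔ SAT3 φ := by
  have hpos : 0 < φ.length := List.length_pos_iff.2 hne
  set m := φ.length with hm
  haveI : NeZero (m * 3) := ⟨by omega⟩
  have hval : ∀ (j : Fin m) (i : Fin 3), Lfun (flat φ) (pos m j i) =
      ![(φ[j]).1, (φ[j]).2.1, (φ[j]).2.2] i := by
    intro j i
    unfold Lfun pos
    rw [finProdFinEquiv_apply_val]
    exact flat_getD φ j j.2 i
  have hlt : ∀ (j : Fin m) (i : Fin 3), (Lfun (flat φ) (pos m j i)).2 < m * 3 := by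
    intro j i
    rw [hval]
    have h1 := hb (φ[j]) (List.getElem_mem _)
    obtain ⟨h1, h2, h3⟩ := h1
    have hm' : φ.length = m := rfl
    fin_cases i
    · show (φ[j]).1.2 < m * 3
      omega
    · show (φ[j]).2.1.2 < m * 3
      omega
    · show (φ[j]).2.2.2 < m * 3
      omega
  have hlt' : ∀ p : Fin (m * 3), (Lfun (flat φ) p).2 < m * 3 := by
    intro p
    obtain ⟨⟨j, i⟩, rfl⟩ := finProdFinEquiv.surjective p
    exact hlt j i
  let lit : Fin (m * 3) → Bool × Fin (m * 3) :=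
    fun p => ((Lfun (flat φ) p).1, ⟨(Lfun (flat φ) p).2, hlt' p⟩)
  have hL : ∀ p : Fin (m * 3), Lfun (flat φ) p = ((lit p).1, ((lit p).2 : ℕ)) := fun p => rfl
  have h0 := good_gr κ m lit (Lfun (flat φ)) hκ hL
  unfold grF
  rw [h0]
  have hlitv : ∀ (j : Fin m) (i : Fin 3) (τ : ℕ → Bool),
      (τ (lit (pos m j i)).2 = (lit (pos m j i)).1 ↔
        τ ((![(φ[j]).1, (φ[j]).2.1, (φ[j]).2.2] : Fin 3 → Lit ℕ) i).2 =
          ((![(φ[j]).1, (φ[j]).2.1, (φ[j]).2.2] : Fin 3 → Lit ℕ) i).1) := by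
    intro j i τ
    rw [← hval]
  constructor
  · rintro ⟨σ, hσ⟩
    let τ : ℕ → Bool := fun v => if h : v < m * 3 then σ ⟨v, h⟩ else false
    have hτ : ∀ v : Fin (m * 3), τ v = σ v := fun v => by simp [τ]
    refine ⟨τ, fun c hc => ?_⟩
    obtain ⟨j, hj, rfl⟩ := List.getElem_of_mem hc
    obtain ⟨i, hi⟩ := hσ ⟨j, hj⟩
    rw [← hτ, hlitv ⟨j, hj⟩ i τ] at hi
    fin_cases i
    · exact Or.inl hi
    · exact Or.inr (Or.inl hi)
    · exact Or.inr (Or.inr hi)
  · rintro ⟨τ, hτ⟩
    refine ⟨fun v => τ v, fun j => ?_⟩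
    have h1 := hτ (φ[j]) (List.getElem_mem _)
    rcases h1 with h1 | h1 | h1
    · exact ⟨0, (hlitv j 0 τ).2 h1⟩
    · exact ⟨1, (hlitv j 1 τ).2 h1⟩
    · exact ⟨2, (hlitv j 2 τ).2 h1⟩

/-! ### The Alon–Tarsi number -/

theorem Good.mono {V : Type} [Fintype V] [DecidableEq V] {G : SimpleGraph V} {k k' : ℕ}
    {D : Finset (V × V)} (h : Good G k D) (hk : k ≤ k') : Good G k' D :=
  ⟨h.1, h.2.1, fun v => (h.2.2 v).trans hk⟩

/-- the acyclic orientation -/
theorem exists_good {n : ℕ} (G : SimpleGraph (Fin n)) : ∃ k D, Good G k D := by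
  classical
  let D : Finset (Fin n × Fin n) := univ.filter (fun a => G.Adj a.1 a.2 ∧ a.1 < a.2)
  have hD : ∀ a, a ∈ D ↔ G.Adj a.1 a.2 ∧ a.1 < a.2 := fun a => by simp [D]
  have hEul : ∀ F ⊆ D, IsEulerian F → F = ∅ := by
    intro F hF hE
    by_contra hne
    obtain ⟨a, ha, hmax⟩ := Finset.exists_max_image F (fun a => a.2)
      (Finset.nonempty_iff_ne_empty.2 hne)
    have h1 : 0 < inDeg F a.2 := by
      unfold inDeg
      rw [Finset.card_pos]
      exact ⟨a, by simp [ha]⟩
    rw [hE a.2] at h1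
    unfold outDeg at h1
    rw [Finset.card_pos] at h1
    obtain ⟨b, hb⟩ := h1
    rw [Finset.mem_filter] at hb
    have h2 := hmax b hb.1
    have h3 := ((hD b).1 (hF hb.1)).2
    rw [hb.2] at h3
    exact absurd h3 (not_lt.2 h2)
  refine ⟨(univ.sup (fun v => outDeg D v)) + 1, D, ⟨⟨fun a ha => ((hD a).1 ha).1, ?_⟩, ?_, ?_⟩⟩
  · intro u v huv
    rw [hD, hD]
    simp only [huv, huv.symm, true_and, not_lt]
    constructor
    · exact le_of_lt
    · intro h
      exact lt_of_le_of_ne h huv.ne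
  · have h0 : IsEulerian (∅ : Finset (Fin n × Fin n)) := by
      intro v
      simp [inDeg, outDeg]
    have hEE : EE D = 1 := by
      unfold EE
      rw [Finset.card_eq_one]
      refine ⟨∅, ?_⟩
      ext F
      simp only [Finset.mem_filter, Finset.mem_powerset, Finset.mem_singleton]
      constructor
      · rintro ⟨h1, h2, _⟩
        exact hEul F h1 h2
      · rintro rfl
        exact ⟨Finset.empty_subset _, h0, by simp⟩
    have hEO : EO D = 0 := by
      unfold EO
      rw [Finset.card_eq_zero, Finset.filter_eq_empty_iff]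
      intro F hF
      rw [Finset.mem_powerset] at hF
      rintro ⟨h1, h2⟩
      rw [hEul F hF h1] at h2
      simp at h2
    rw [hEE, hEO]
    norm_num
  · intro v
    have := Finset.le_sup (f := fun v => outDeg D v) (Finset.mem_univ v)
    omega

theorem ATnum_le_iff {n : ℕ} (G : SimpleGraph (Fin n)) (k : ℕ) :
    ATnum G ≤ k ↔ ∃ D, Good G k D := by
  unfold ATnum
  constructor
  · intro h
    have h1 : sInf {k | ∃ D, Good G k D} ∈ {k | ∃ D, Good G k D} :=
      Nat.sInf_mem (exists_good G)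
    obtain ⟨D, hD⟩ := h1
    exact ⟨D, hD.mono h⟩
  · intro h
    exact Nat.sInf_le h

end Pool.Agent.H697R2.AT
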