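import Pool.Agent.H697R2.AT.Simp
import Pool.Agent.H697R2.AT.Form
import Pool.Agent.H671R2.GraphEnc

/-!
# Labels for the vertices
-/

set_option autoImplicit false

namespace Pool.Agent.H697R2.AT

open Finset

/-- labels -/
abbrev Lb : Type := ℕ × ℕ × ℕ

/-- label of a vertex outside the core -/
def lab0 (m : ℕ) : V0 (TT m) (PP m) (SL m) → Lb
  | Sum.inl ((q, p), k) => (k, q, p)
  | Sum.inr (Sum.inl (Sum.inl (q, p))) => (4, q, p)
  | Sum.inr (Sum.inl (Sum.inr (Sum.inl (q, p)))) => (5, q, p)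
  | Sum.inr (Sum.inl (Sum.inr (Sum.inr (j, i)))) => (6, j, i)
  | Sum.inr (Sum.inr (j, i)) => (7, j, i)

/-- label of a vertex -/
def lab (m κ : ℕ) : VV (TT m) (PP m) (SL m) κ → Lb
  | Sum.inl v => lab0 m v
  | Sum.inr (Sum.inl (b, i)) => (8, bz b, i)
  | Sum.inr (Sum.inr (b, i)) => (9, bz b, i)

theorem bz_inj {a b : Bool} (h : bz a = bz b) : a = b := by
  revert h
  cases a <;> cases b <;> decide

theorem lab0_fst (m : ℕ) (v : V0 (TT m) (PP m) (SL m)) : (lab0 m v).1 < 8 := by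
  rcases v with ⟨⟨q, p⟩, k⟩ | ((⟨q, p⟩ | (⟨q, p⟩ | ⟨j, i⟩)) | ⟨j, i⟩) <;> simp only [lab0]
  · omega
  all_goals norm_num

theorem lab0_inj (m : ℕ) : Function.Injective (lab0 m) := by
  intro v v' h
  rcases v with ⟨⟨q, p⟩, k⟩ | ((⟨q, p⟩ | (⟨q, p⟩ | ⟨j, i⟩)) | ⟨j, i⟩) <;>
  rcases v' with ⟨⟨q', p'⟩, k'⟩ | ((⟨q', p'⟩ | (⟨q', p'⟩ | ⟨j', i'⟩)) | ⟨j', i'⟩) <;>
  simp only [lab0, Prod.mk.injEq, Fin.val_inj, true_and] at h <;>
  first
  | (obtain ⟨h1, h2, h3⟩ := h; subst h1; subst h2; subst h3; rfl)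
  | (obtain ⟨h1, h2⟩ := h; subst h1; subst h2; rfl)
  | (exfalso; omega)

theorem lab_inj (m κ : ℕ) : Function.Injective (lab m κ) := by
  intro v v' h
  rcases v with v | (⟨b, i⟩ | ⟨b, i⟩) <;> rcases v' with v' | (⟨b', i'⟩ | ⟨b', i'⟩)
  · exact congrArg Sum.inl (lab0_inj m h)
  · exfalso
    have h1 := lab0_fst m v
    have h2 : lab0 m v = (8, bz b', (i' : ℕ)) := h
    rw [h2] at h1
    simp at h1
  · exfalso
    have h1 := lab0_fst m v
    have h2 : lab0 m v = (9, bz b', (i' : ℕ)) := h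
    rw [h2] at h1
    simp at h1
  · exfalso
    have h1 := lab0_fst m v'
    have h2 : (8, bz b, (i : ℕ)) = lab0 m v' := h
    rw [← h2] at h1
    simp at h1
  · simp only [lab, Prod.mk.injEq, true_and, Fin.val_inj] at h
    rw [bz_inj h.1, h.2]
  · simp [lab] at h
  · exfalso
    have h1 := lab0_fst m v'
    have h2 : (9, bz b, (i : ℕ)) = lab0 m v' := h
    rw [← h2] at h1
    simp at h1
  · simp [lab] at h
  · simp only [lab, Prod.mk.injEq, true_and, Fin.val_inj] at h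
    rw [bz_inj h.1, h.2]

/-- labels of the vertices outside the core -/
def vlist0 (m : ℕ) : List Lb :=
  (List.range 6 ×ˢ (List.range (m * 3) ×ˢ List.range (m * 3))) ++
    (([6, 7] : List ℕ) ×ˢ (List.range m ×ˢ List.range 3))

/-- labels of the vertices -/
def vlist (κ m : ℕ) : List Lb :=
  vlist0 m ++ (([8, 9] : List ℕ) ×ˢ (List.range 2 ×ˢ List.range κ))

theorem mem_vlist0 (m : ℕ) (z : Lb) : z ∈ vlist0 m ↔ ∃ v, lab0 m v = z := by
  obtain ⟨a, b, c⟩ := z
  unfold vlist0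
  simp only [List.mem_append, List.mem_product, List.mem_range, List.mem_cons,
    List.not_mem_nil, or_false]
  constructor
  · rintro (⟨h1, h2, h3⟩ | ⟨h1 | h1, h2, h3⟩)
    · by_cases h4 : a < 4
      · exact ⟨Sum.inl ((⟨b, h2⟩, ⟨c, h3⟩), ⟨a, h4⟩), rfl⟩
      · by_cases h5 : a = 4
        · subst h5
          exact ⟨Sum.inr (Sum.inl (Sum.inl (⟨b, h2⟩, ⟨c, h3⟩))), rfl⟩
        · have h6 : a = 5 := by omega
          subst h6
          exact ⟨Sum.inr (Sum.inl (Sum.inr (Sum.inl (⟨b, h2⟩, ⟨c, h3⟩)))), rfl⟩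
    · subst h1
      exact ⟨Sum.inr (Sum.inl (Sum.inr (Sum.inr (⟨b, h2⟩, ⟨c, h3⟩)))), rfl⟩
    · subst h1
      exact ⟨Sum.inr (Sum.inr (⟨b, h2⟩, ⟨c, h3⟩)), rfl⟩
  · rintro ⟨v, hv⟩
    rcases v with ⟨⟨q, p⟩, k⟩ | ((⟨q, p⟩ | (⟨q, p⟩ | ⟨j, i⟩)) | ⟨j, i⟩) <;>
    simp only [lab0, Prod.mk.injEq] at hv <;> obtain ⟨rfl, rfl, rfl⟩ := hv
    · left
      exact ⟨by omega, q.2, p.2⟩
    · left
      exact ⟨by omega, q.2, p.2⟩
    · left
      exact ⟨by omega, q.2, p.2⟩
    · right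
      exact ⟨Or.inl rfl, j.2, i.2⟩
    · right
      exact ⟨Or.inr rfl, j.2, i.2⟩

theorem mem_vlist (κ m : ℕ) (z : Lb) : z ∈ vlist κ m ↔ ∃ v, lab m κ v = z := by
  unfold vlist
  rw [List.mem_append, mem_vlist0]
  obtain ⟨a, b, c⟩ := z
  simp only [List.mem_product, List.mem_range, List.mem_cons, List.not_mem_nil, or_false]
  constructor
  · rintro (⟨v, hv⟩ | ⟨h1 | h1, h2, h3⟩)
    · exact ⟨Sum.inl v, hv⟩
    · subst h1
      refine ⟨Sum.inr (Sum.inl (decide (b = 1), ⟨c, h3⟩)), ?_⟩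
      have : bz (decide (b = 1)) = b := by
        interval_cases b <;> rfl
      simp only [lab, this]
    · subst h1
      refine ⟨Sum.inr (Sum.inr (decide (b = 1), ⟨c, h3⟩)), ?_⟩
      have : bz (decide (b = 1)) = b := by
        interval_cases b <;> rfl
      simp only [lab, this]
  · rintro ⟨v | (⟨x, i⟩ | ⟨x, i⟩), hv⟩
    · exact Or.inl ⟨v, hv⟩
    · right
      simp only [lab, Prod.mk.injEq] at hv
      obtain ⟨rfl, rfl, rfl⟩ := hv
      exact ⟨Or.inl rfl, by cases x <;> simp [bz], i.2⟩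
    · right
      simp only [lab, Prod.mk.injEq] at hv
      obtain ⟨rfl, rfl, rfl⟩ := hv
      exact ⟨Or.inr rfl, by cases x <;> simp [bz], i.2⟩

theorem vlist_nodup (κ m : ℕ) : (vlist κ m).Nodup := by
  unfold vlist vlist0
  rw [List.nodup_append', List.nodup_append']
  refine ⟨⟨?_, ?_, ?_⟩, ?_, ?_⟩
  · exact List.nodup_range.product (List.nodup_range.product List.nodup_range)
  · exact List.Nodup.product (by decide) (List.nodup_range.product List.nodup_range)
  · rw [List.disjoint_left]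
    rintro ⟨a, b, c⟩ h1 h2
    simp only [List.mem_product, List.mem_range, List.mem_cons, List.not_mem_nil, or_false]
      at h1 h2
    omega
  · exact List.Nodup.product (by decide) (List.nodup_range.product List.nodup_range)
  · rw [List.disjoint_left]
    rintro ⟨a, b, c⟩ h1 h2
    simp only [List.mem_append, List.mem_product, List.mem_range, List.mem_cons,
      List.not_mem_nil, or_false] at h1 h2
    omega

/-! ### The list of edges -/

/-- label of the vertex `α2` -/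
def lA2 (l : Bool × ℕ) (q p : ℕ) : Lb :=
  if l.2 = q then (if l.1 then (6, p / 3, if p % 3 = 2 then 2 else 1) else (6, p / 3, 0))
  else (5, q, p)

/-- label of the vertex `β2` -/
def lB2 (l : Bool × ℕ) (q p : ℕ) : Lb :=
  if l.2 = q then (if l.1 then (6, p / 3, 0) else (6, p / 3, if p % 3 = 2 then 2 else 1))
  else (5, q, p)

/-- the edges at a node -/
def nodeEdges (l : Bool × ℕ) (n q p : ℕ) : List (Lb × Lb) :=
  [((0, q, p), (1, q, p)), ((0, q, p), (2, q, p)), ((2, q, p), (1, q, p)),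
    ((4, q, p), (0, q, p)), (lA2 l q p, (0, q, p)), ((4, q, (p + 1) % n), (1, q, p)),
    ((3, q, p), (1, q, p)), (lB2 l q p, (3, q, p))]

/-- the edges at a slack vertex -/
def slackEdges (j i : ℕ) : List (Lb × Lb) :=
  [((6, j, if i = 2 then 1 else 0), (7, j, i)), ((7, j, i), (6, j, if i = 0 then 1 else 2))]

/-- the number of non-forced outgoing arcs -/
def tarL (Lf : ℕ → Bool × ℕ) (z : Lb) : ℕ :=
  if z.1 < 2 then 2 else if z.1 < 5 then 1 else
    if z.1 = 5 then (if (Lf z.2.2).2 = z.2.1 then 0 else 1) else if z.1 = 6 then 2 else 1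

/-- the forced edges at a vertex -/
def forcedEdges (κ : ℕ) (Lf : ℕ → Bool × ℕ) (z : Lb) : List (Lb × Lb) :=
  ((List.range κ).filter (fun i => decide (i + tarL Lf z < κ))).map (fun i => (z, (8, 0, i)))

/-- the edges of the core -/
def coreEdges (κ : ℕ) : List (Lb × Lb) :=
  ((List.range 2 ×ˢ List.range κ) ×ˢ (List.range 2 ×ˢ List.range κ)).map
    (fun z => ((8, z.1), (9, z.2)))

/-- all the edges -/
def edgeList (κ m : ℕ) (Lf : ℕ → Bool × ℕ) : List (Lb × Lb) :=
  ((List.range (m * 3) ×ˢ List.range (m * 3)).flatMap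
      (fun r => nodeEdges (Lf r.2) (m * 3) r.1 r.2)) ++
    ((List.range m ×ˢ List.range 3).flatMap (fun r => slackEdges r.1 r.2)) ++
    ((vlist0 m).flatMap (fun z => forcedEdges κ Lf z)) ++ coreEdges κ

section

variable (κ m : ℕ) [NeZero (m * 3)] (lit : Fin (m * 3) → Bool × Fin (m * 3))
  (Lf : ℕ → Bool × ℕ)

theorem val_succ (p : Fin (m * 3)) : ((p + 1 : Fin (m * 3)) : ℕ) = ((p : ℕ) + 1) % (m * 3) := by
  rw [Fin.val_add, Fin.val_one', Nat.add_mod_mod]

theorem nodeEdges_eq (hL : ∀ p : Fin (m * 3), Lf p = ((lit p).1, ((lit p).2 : ℕ))) (r : TT m) :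
    nodeEdges (Lf r.2) (m * 3) r.1 r.2 = List.ofFn (fun i : Fin 8 =>
      (lab m κ ((net κ m lit).src ((net κ m lit).eT r i)),
        lab m κ ((net κ m lit).tgt ((net κ m lit).eT r i)))) := by
  obtain ⟨q, p⟩ := r
  have hA : lab m κ (Net.pl (N := net κ m lit) ((net κ m lit).α2 (q, p))) = lA2 (Lf p) q p := by
    rw [hL p]
    unfold lA2
    by_cases h : (lit p).2 = q
    · have h' : ((lit p).2 : ℕ) = q := by rw [h]
      simp only [net, if_pos h, if_pos h']
      by_cases hb : (lit p).1 = true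
      · simp only [if_pos hb, lab, lab0, gv, Fin.coe_divNat]
        congr 2
        have e : (p.modNat = 2) ↔ ((p : ℕ) % 3 = 2) := by
          rw [Fin.ext_iff, Fin.coe_modNat]
          rfl
        by_cases h3 : p.modNat = 2
        · rw [if_pos h3, if_pos (e.1 h3)]
          rfl
        · rw [if_neg h3, if_neg (fun h => h3 (e.2 h))]
          rfl
      · simp only [if_neg hb, lab, lab0, cv, Fin.coe_divNat]
        simp
    · have h' : ¬ ((lit p).2 : ℕ) = q := fun hh => h (Fin.ext hh)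
      simp only [net, if_neg h, if_neg h', lab, lab0]
  have hB : lab m κ (Net.pl (N := net κ m lit) ((net κ m lit).β2 (q, p))) = lB2 (Lf p) q p := by
    rw [hL p]
    unfold lB2
    by_cases h : (lit p).2 = q
    · have h' : ((lit p).2 : ℕ) = q := by rw [h]
      simp only [net, if_pos h, if_pos h']
      by_cases hb : (lit p).1 = true
      · simp only [if_pos hb, lab, lab0, cv, Fin.coe_divNat]
        simp
      · simp only [if_neg hb, lab, lab0, gv, Fin.coe_divNat]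
        congr 2
        have e : (p.modNat = 2) ↔ ((p : ℕ) % 3 = 2) := by
          rw [Fin.ext_iff, Fin.coe_modNat]
          rfl
        by_cases h3 : p.modNat = 2
        · rw [if_pos h3, if_pos (e.1 h3)]
          rfl
        · rw [if_neg h3, if_neg (fun h => h3 (e.2 h))]
          rfl
    · have h' : ¬ ((lit p).2 : ℕ) = q := fun hh => h (Fin.ext hh)
      simp only [net, if_neg h, if_neg h', lab, lab0]
  have hC : lab m κ (Net.pl (N := net κ m lit) ((net κ m lit).β1 (q, p))) =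
      (4, (q : ℕ), ((p : ℕ) + 1) % (m * 3)) := by
    simp only [net, lab, lab0, val_succ]
  simp only [List.ofFn_succ, List.ofFn_zero, Net.src, Net.tgt]
  unfold nodeEdges
  rw [← hA, ← hB, ← hC]
  rfl

theorem slackEdges_eq (s : SL m) :
    slackEdges s.1 s.2 = List.ofFn (fun i : Fin 2 =>
      (lab m κ ((net κ m lit).src ((net κ m lit).eS s i)),
        lab m κ ((net κ m lit).tgt ((net κ m lit).eS s i)))) := by
  obtain ⟨j, i⟩ := s
  simp only [List.ofFn_succ, List.ofFn_zero, Net.src, Net.tgt]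
  unfold slackEdges
  fin_cases i <;> rfl

theorem tarL_eq (hL : ∀ p : Fin (m * 3), Lf p = ((lit p).1, ((lit p).2 : ℕ)))
    (v : V0 (TT m) (PP m) (SL m)) : tarL Lf (lab0 m v) = (net κ m lit).tar v := by
  rcases v with ⟨⟨q, p⟩, k⟩ | ((⟨q, p⟩ | (⟨q, p⟩ | ⟨j, i⟩)) | ⟨j, i⟩)
  · fin_cases k <;> rfl
  · rfl
  · show (if (Lf p).2 = q then 0 else 1) = if (lit p).2 = q then 0 else 1
    rw [hL p]
    by_cases h : (lit p).2 = q
    · rw [if_pos h, if_pos (by rw [h])]
    · rw [if_neg h, if_neg (fun hh => h (Fin.ext hh))]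
  · rfl
  · rfl

theorem mem_forced (hκ : 2 ≤ κ) (hL : ∀ p : Fin (m * 3), Lf p = ((lit p).1, ((lit p).2 : ℕ)))
    (v : V0 (TT m) (PP m) (SL m)) (z : Lb × Lb) :
    z ∈ forcedEdges κ Lf (lab0 m v) ↔ ∃ i, (lab m κ ((net κ m lit).src ((net κ m lit).eF v i)),
        lab m κ ((net κ m lit).tgt ((net κ m lit).eF v i))) = z := by
  unfold forcedEdges
  simp only [List.mem_map, List.mem_filter, List.mem_range, decide_eq_true_eq]
  have h1 := Net.f_add_tar (net_ok κ m lit hκ) v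
  rw [tarL_eq κ m lit Lf hL v]
  constructor
  · rintro ⟨i, ⟨h2, h3⟩, rfl⟩
    have h4 : i < (net κ m lit).f v := by
      change _ = κ at h1
      omega
    exact ⟨⟨i, h4⟩, rfl⟩
  · rintro ⟨i, rfl⟩
    have h4 := i.2
    change _ = κ at h1
    exact ⟨i, ⟨by omega, by omega⟩, rfl⟩

theorem mem_core (z : Lb × Lb) :
    z ∈ coreEdges κ ↔ ∃ x y, (lab m κ ((net κ m lit).src ((net κ m lit).eK x y)),
        lab m κ ((net κ m lit).tgt ((net κ m lit).eK x y))) = z := by
  unfold coreEdges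
  simp only [List.mem_map, Prod.exists, List.mem_product, List.mem_range]
  constructor
  · rintro ⟨a, b, c, d, ⟨⟨h1, h2⟩, h3, h4⟩, rfl⟩
    refine ⟨decide (a = 1), ⟨b, h2⟩, decide (c = 1), ⟨d, h4⟩, ?_⟩
    have e1 : bz (decide (a = 1)) = a := by
      interval_cases a <;> rfl
    have e2 : bz (decide (c = 1)) = c := by
      interval_cases c <;> rfl
    simp only [Net.src, Net.tgt, lab, e1, e2]
  · rintro ⟨a, b, c, d, rfl⟩
    refine ⟨bz a, b, bz c, d, ⟨⟨by cases a <;> simp [bz], b.2⟩, by cases c <;> simp [bz], d.2⟩,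
      rfl⟩

theorem mem_edgeList (hκ : 2 ≤ κ) (hL : ∀ p : Fin (m * 3), Lf p = ((lit p).1, ((lit p).2 : ℕ)))
    (z : Lb × Lb) : z ∈ edgeList κ m Lf ↔
      ∃ e, (lab m κ ((net κ m lit).src e), lab m κ ((net κ m lit).tgt e)) = z := by
  unfold edgeList
  rw [List.mem_append, List.mem_append, List.mem_append, mem_core κ m lit]
  have h1 : z ∈ (List.range (m * 3) ×ˢ List.range (m * 3)).flatMap
      (fun r => nodeEdges (Lf r.2) (m * 3) r.1 r.2) ↔ ∃ r i,
      (lab m κ ((net κ m lit).src ((net κ m lit).eT r i)),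
        lab m κ ((net κ m lit).tgt ((net κ m lit).eT r i))) = z := by
    rw [List.mem_flatMap]
    constructor
    · rintro ⟨⟨a, b⟩, h1, h2⟩
      rw [List.mem_product, List.mem_range, List.mem_range] at h1
      have h3 := nodeEdges_eq κ m lit Lf hL (⟨a, h1.1⟩, ⟨b, h1.2⟩)
      simp only at h3
      rw [h3, List.mem_ofFn] at h2
      exact ⟨_, h2⟩
    · rintro ⟨r, i, rfl⟩
      refine ⟨(r.1, r.2), ?_, ?_⟩
      · rw [List.mem_product, List.mem_range, List.mem_range]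
        exact ⟨r.1.2, r.2.2⟩
      · have h3 := nodeEdges_eq κ m lit Lf hL r
        simp only
        rw [h3, List.mem_ofFn]
        exact ⟨i, rfl⟩
  have h2 : z ∈ (List.range m ×ˢ List.range 3).flatMap (fun r => slackEdges r.1 r.2) ↔ ∃ s i,
      (lab m κ ((net κ m lit).src ((net κ m lit).eS s i)),
        lab m κ ((net κ m lit).tgt ((net κ m lit).eS s i))) = z := by
    rw [List.mem_flatMap]
    constructor
    · rintro ⟨⟨a, b⟩, h1, h2⟩
      rw [List.mem_product, List.mem_range, List.mem_range] at h1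
      have h3 := slackEdges_eq κ m lit (⟨a, h1.1⟩, ⟨b, h1.2⟩)
      simp only at h3
      rw [h3, List.mem_ofFn] at h2
      exact ⟨_, h2⟩
    · rintro ⟨r, i, rfl⟩
      refine ⟨(r.1, r.2), ?_, ?_⟩
      · rw [List.mem_product, List.mem_range, List.mem_range]
        exact ⟨r.1.2, r.2.2⟩
      · have h3 := slackEdges_eq κ m lit r
        simp only
        rw [h3, List.mem_ofFn]
        exact ⟨i, rfl⟩
  have h3 : z ∈ (vlist0 m).flatMap (fun z => forcedEdges κ Lf z) ↔ ∃ v i,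
      (lab m κ ((net κ m lit).src ((net κ m lit).eF v i)),
        lab m κ ((net κ m lit).tgt ((net κ m lit).eF v i))) = z := by
    rw [List.mem_flatMap]
    constructor
    · rintro ⟨x, h1, h2⟩
      obtain ⟨v, rfl⟩ := (mem_vlist0 m x).1 h1
      exact ⟨v, (mem_forced κ m lit Lf hκ hL v z).1 h2⟩
    · rintro ⟨v, h⟩
      exact ⟨lab0 m v, (mem_vlist0 m _).2 ⟨v, rfl⟩, (mem_forced κ m lit Lf hκ hL v z).2 h⟩
  rw [h1, h2, h3]
  constructor
  · rintro (((⟨r, i, h⟩ | ⟨s, i, h⟩) | ⟨v, i, h⟩) | ⟨x, y, h⟩)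
    · exact ⟨_, h⟩
    · exact ⟨_, h⟩
    · exact ⟨_, h⟩
    · exact ⟨_, h⟩
  · rintro ⟨(⟨r, i⟩ | ⟨s, i⟩) | (⟨v, i⟩ | ⟨x, y⟩), h⟩
    · exact Or.inl (Or.inl (Or.inl ⟨r, i, h⟩))
    · exact Or.inl (Or.inl (Or.inr ⟨s, i, h⟩))
    · exact Or.inl (Or.inr ⟨v, i, h⟩)
    · exact Or.inr ⟨x, y, h⟩

end

end Pool.Agent.H697R2.AT
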