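import Pool.Agent.H697R2.AT.Sum

/-!
# The network: triangles as equality gadgets
-/

set_option autoImplicit false

namespace Pool.Agent.H697R2.AT

open Finset

/-- A network. -/
structure Net (T P S : Type) where
  κ : ℕ
  α1 : T → P
  α2 : T → P
  β1 : T → P
  β2 : T → P
  γ1 : S → P
  γ2 : S → P
  τ : P → ℕ

variable {T P S : Type} [Fintype T] [DecidableEq T] [Fintype P] [DecidableEq P] [Fintype S]
  [DecidableEq S]

/-- vertices outside the core: four for each node, the plain ones, one for each slack -/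
abbrev V0 (T P S : Type) : Type := (T × Fin 4) ⊕ (P ⊕ S)

/-- the core -/
abbrev KV (κ : ℕ) : Type := (Bool × Fin κ) ⊕ (Bool × Fin κ)

abbrev VV (T P S : Type) (κ : ℕ) : Type := V0 T P S ⊕ KV κ

namespace Net

variable (N : Net T P S)

/-- the number of forced edges -/
def f : V0 T P S → ℕ
  | Sum.inl (_, i) => ![N.κ - 2, N.κ - 2, N.κ - 1, N.κ - 1] i
  | Sum.inr (Sum.inl p) => N.κ - N.τ p
  | Sum.inr (Sum.inr _) => N.κ - 1

theorem f_le (v : V0 T P S) : N.f v ≤ N.κ := by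
  rcases v with ⟨r, i⟩ | p | s
  · fin_cases i <;> simp [f]
  · simp [f]
  · simp [f]

/-- the edges -/
abbrev EV : Type := ((T × Fin 8) ⊕ (S × Fin 2)) ⊕
  ((Σ v : V0 T P S, Fin (N.f v)) ⊕ ((Bool × Fin N.κ) × (Bool × Fin N.κ)))

variable {N}
abbrev nd (r : T) (i : Fin 4) : VV T P S N.κ := Sum.inl (Sum.inl (r, i))
abbrev pl (p : P) : VV T P S N.κ := Sum.inl (Sum.inr (Sum.inl p))
abbrev sl (s : S) : VV T P S N.κ := Sum.inl (Sum.inr (Sum.inr s))
abbrev ka (x : Bool × Fin N.κ) : VV T P S N.κ := Sum.inr (Sum.inl x)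
abbrev kb (x : Bool × Fin N.κ) : VV T P S N.κ := Sum.inr (Sum.inr x)
variable (N)

def src : N.EV → VV T P S N.κ
  | Sum.inl (Sum.inl (r, i)) =>
    ![nd r 0, nd r 0, nd r 2, pl (N.α1 r), pl (N.α2 r), pl (N.β1 r), nd r 3, pl (N.β2 r)] i
  | Sum.inl (Sum.inr (s, i)) => ![pl (N.γ1 s), sl s] i
  | Sum.inr (Sum.inl ⟨v, _⟩) => Sum.inl v
  | Sum.inr (Sum.inr (x, _)) => ka x

def tgt : N.EV → VV T P S N.κ
  | Sum.inl (Sum.inl (r, i)) =>
    ![nd r 1, nd r 2, nd r 1, nd r 0, nd r 0, nd r 1, nd r 1, nd r 3] i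
  | Sum.inl (Sum.inr (s, i)) => ![sl s, pl (N.γ2 s)] i
  | Sum.inr (Sum.inl ⟨v, i⟩) => ka (false, Fin.castLE (N.f_le v) i)
  | Sum.inr (Sum.inr (_, y)) => kb y

/-- shorthands -/
abbrev eT (r : T) (i : Fin 8) : N.EV := Sum.inl (Sum.inl (r, i))
abbrev eS (s : S) (i : Fin 2) : N.EV := Sum.inl (Sum.inr (s, i))
abbrev eF (v : V0 T P S) (i : Fin (N.f v)) : N.EV := Sum.inr (Sum.inl ⟨v, i⟩)
abbrev eK (x y : Bool × Fin N.κ) : N.EV := Sum.inr (Sum.inr (x, y))

/-- forced edges at a vertex -/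
def fo (y : N.EV → Bool) (v : V0 T P S) : ℕ := ∑ i, bz (y (N.eF v i))

theorem sum_EV {M : Type} [AddCommMonoid M] (g : N.EV → M) :
    ∑ e, g e = ((∑ r, ∑ i, g (N.eT r i)) + ∑ s, ∑ i, g (N.eS s i)) +
      ((∑ v, ∑ i, g (N.eF v i)) + ∑ x, ∑ y, g (N.eK x y)) := by
  rw [Fintype.sum_sum_type, Fintype.sum_sum_type, Fintype.sum_sum_type, Fintype.sum_prod_type,
    Fintype.sum_prod_type, Fintype.sum_sigma, Fintype.sum_prod_type]

theorem prod_EV {M : Type} [CommMonoid M] (g : N.EV → M) :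
    ∏ e, g e = ((∏ r, ∏ i, g (N.eT r i)) * ∏ s, ∏ i, g (N.eS s i)) *
      ((∏ v, ∏ i, g (N.eF v i)) * ∏ x, ∏ y, g (N.eK x y)) := by
  rw [Fintype.prod_sum_type, Fintype.prod_sum_type, Fintype.prod_sum_type, Fintype.prod_prod_type,
    Fintype.prod_prod_type, Fintype.prod_sigma, Fintype.prod_prod_type]

/-- out-degree, forced part -/
theorem forced_part (y : N.EV → Bool) (v : V0 T P S) :
    (∑ v', ∑ i, (bz (y (N.eF v' i)) * (if N.src (N.eF v' i) = Sum.inl v then 1 else 0) +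
      bz (!y (N.eF v' i)) * (if N.tgt (N.eF v' i) = Sum.inl v then 1 else 0))) = N.fo y v := by
  unfold fo
  have : ∀ v', (∑ i, (bz (y (N.eF v' i)) * (if N.src (N.eF v' i) = Sum.inl v then 1 else 0) +
      bz (!y (N.eF v' i)) * (if N.tgt (N.eF v' i) = Sum.inl v then 1 else 0))) =
      if v' = v then ∑ i, bz (y (N.eF v' i)) else 0 := by
    intro v'
    by_cases hv : v' = v
    · subst hv
      simp [src, tgt]
    · simp [src, tgt, hv]
  rw [Finset.sum_congr rfl fun v' _ => this v']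
  simp

theorem K_part (y : N.EV → Bool) (v : V0 T P S) :
    (∑ x, ∑ z, (bz (y (N.eK x z)) * (if N.src (N.eK x z) = Sum.inl v then 1 else 0) +
      bz (!y (N.eK x z)) * (if N.tgt (N.eK x z) = Sum.inl v then 1 else 0))) = 0 := by
  simp [src, tgt]

theorem out_V0 (y : N.EV → Bool) (v : V0 T P S) :
    out N.src N.tgt y (Sum.inl v) =
      (∑ r, ∑ i, (bz (y (N.eT r i)) * (if N.src (N.eT r i) = Sum.inl v then 1 else 0) +
        bz (!y (N.eT r i)) * (if N.tgt (N.eT r i) = Sum.inl v then 1 else 0))) +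
      (∑ s, ∑ i, (bz (y (N.eS s i)) * (if N.src (N.eS s i) = Sum.inl v then 1 else 0) +
        bz (!y (N.eS s i)) * (if N.tgt (N.eS s i) = Sum.inl v then 1 else 0))) + N.fo y v := by
  unfold out
  rw [sum_EV, forced_part, K_part, add_zero]

theorem out_a (y : N.EV → Bool) (r : T) :
    out N.src N.tgt y (nd r 0) = bz (y (N.eT r 0)) + bz (y (N.eT r 1)) + bz (!y (N.eT r 3)) +
      bz (!y (N.eT r 4)) + N.fo y (Sum.inl (r, 0)) := by
  rw [out_V0]
  simp only [Fin.sum_univ_eight, Fin.sum_univ_two]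
  simp [src, tgt, Finset.sum_add_distrib]
  try ring

theorem out_b (y : N.EV → Bool) (r : T) :
    out N.src N.tgt y (nd r 1) = bz (!y (N.eT r 0)) + bz (!y (N.eT r 2)) + bz (!y (N.eT r 5)) +
      bz (!y (N.eT r 6)) + N.fo y (Sum.inl (r, 1)) := by
  rw [out_V0]
  simp only [Fin.sum_univ_eight, Fin.sum_univ_two]
  simp [src, tgt, Finset.sum_add_distrib]
  try ring

theorem out_w (y : N.EV → Bool) (r : T) :
    out N.src N.tgt y (nd r 2) = bz (!y (N.eT r 1)) + bz (y (N.eT r 2)) +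
      N.fo y (Sum.inl (r, 2)) := by
  rw [out_V0]
  simp only [Fin.sum_univ_eight, Fin.sum_univ_two]
  simp [src, tgt, Finset.sum_add_distrib]
  try ring

theorem out_v (y : N.EV → Bool) (r : T) :
    out N.src N.tgt y (nd r 3) = bz (y (N.eT r 6)) + bz (!y (N.eT r 7)) +
      N.fo y (Sum.inl (r, 3)) := by
  rw [out_V0]
  simp only [Fin.sum_univ_eight, Fin.sum_univ_two]
  simp [src, tgt, Finset.sum_add_distrib]
  try ring

theorem out_s (y : N.EV → Bool) (s : S) :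
    out N.src N.tgt y (sl s) = bz (!y (N.eS s 0)) + bz (y (N.eS s 1)) +
      N.fo y (Sum.inr (Sum.inr s)) := by
  rw [out_V0]
  simp only [Fin.sum_univ_eight, Fin.sum_univ_two]
  simp [src, tgt, Finset.sum_add_distrib]
  try ring

theorem out_p (y : N.EV → Bool) (p : P) :
    out N.src N.tgt y (pl p) =
      (∑ r, (bz (y (N.eT r 3)) * (if N.α1 r = p then 1 else 0) +
        bz (y (N.eT r 4)) * (if N.α2 r = p then 1 else 0) +
        bz (y (N.eT r 5)) * (if N.β1 r = p then 1 else 0) +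
        bz (y (N.eT r 7)) * (if N.β2 r = p then 1 else 0))) +
      (∑ s, (bz (y (N.eS s 0)) * (if N.γ1 s = p then 1 else 0) +
        bz (!y (N.eS s 1)) * (if N.γ2 s = p then 1 else 0))) +
      N.fo y (Sum.inr (Sum.inl p)) := by
  rw [out_V0]
  simp only [Fin.sum_univ_eight, Fin.sum_univ_two]
  simp [src, tgt]

end Net

end Pool.Agent.H697R2.AT
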