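import Pool.Agent.H697R2.AT.Net

/-!
# Counting in the network
-/

set_option autoImplicit false

namespace Pool.Agent.H697R2.AT

open Finset

theorem bz_add_not (b : Bool) : bz b + bz (!b) = 1 := by cases b <;> rfl

theorem sum_out {V E : Type} [Fintype V] [DecidableEq V] [Fintype E]
    (s t : E → V) (x : E → Bool) : ∑ v, out s t x v = Fintype.card E := by
  unfold out
  rw [Finset.sum_comm]
  have : ∀ e : E, (∑ v, (bz (x e) * (if s e = v then 1 else 0) +
      bz (!x e) * (if t e = v then 1 else 0))) = 1 := by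
    intro e
    rw [Finset.sum_add_distrib, ← Finset.mul_sum, ← Finset.mul_sum]
    simp [bz_add_not]
  rw [Finset.sum_congr rfl fun e _ => this e]
  simp

variable {T P S : Type} [Fintype T] [DecidableEq T] [Fintype P] [DecidableEq P] [Fintype S]
  [DecidableEq S]

namespace Net

variable (N : Net T P S)

/-- the hypotheses -/
structure OK : Prop where
  hκ : 2 ≤ N.κ
  hα : ∀ r, N.α1 r ≠ N.α2 r
  hγ : ∀ s, N.γ1 s ≠ N.γ2 s
  hτ : ∀ p, N.τ p ≤ N.κ
  tight : ∑ p, N.τ p = 2 * Fintype.card T + Fintype.card S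

/-- targets of the out-degrees without the forced edges -/
def tar : V0 T P S → ℕ
  | Sum.inl (_, i) => ![2, 2, 1, 1] i
  | Sum.inr (Sum.inl p) => N.τ p
  | Sum.inr (Sum.inr _) => 1

variable {N}

theorem f_add_tar (h : N.OK) (v : V0 T P S) : N.f v + N.tar v = N.κ := by
  have := h.hκ
  rcases v with ⟨r, i⟩ | p | s
  · fin_cases i <;> simp [f, tar] <;> omega
  · have := h.hτ p
    simp [f, tar]
    omega
  · simp [f, tar]
    omega

theorem sum_tar (h : N.OK) : ∑ v, N.tar v = 8 * Fintype.card T + 2 * Fintype.card S := by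
  rw [Fintype.sum_sum_type, Fintype.sum_sum_type, Fintype.sum_prod_type]
  have h1 : ∀ r : T, ∑ i : Fin 4, N.tar (Sum.inl (r, i)) = 6 := by
    intro r
    rw [Fin.sum_univ_four]
    simp [tar]
  rw [Finset.sum_congr rfl fun r _ => h1 r]
  have h2 : ∑ p, N.tar (Sum.inr (Sum.inl p) : V0 T P S) = 2 * Fintype.card T + Fintype.card S :=
    h.tight
  have h3 : ∑ s : S, N.tar (Sum.inr (Sum.inr s) : V0 T P S) = Fintype.card S := by
    simp [tar]
  rw [h2, h3]
  simp
  ring

/-- number of forced edges directed out of the core -/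
def nf (y : N.EV → Bool) : ℕ := ∑ v, ∑ i, bz (!y (N.eF v i))

theorem out_kb (y : N.EV → Bool) (z : Bool × Fin N.κ) :
    out N.src N.tgt y (kb z) = ∑ x, bz (!y (N.eK x z)) := by
  unfold out
  rw [sum_EV]
  have h1 : (∑ r, ∑ i, (bz (y (N.eT r i)) * (if N.src (N.eT r i) = kb z then 1 else 0) +
        bz (!y (N.eT r i)) * (if N.tgt (N.eT r i) = kb z then 1 else 0))) = 0 := by
    simp only [Fin.sum_univ_eight]
    simp [src, tgt]
  have h2 : (∑ s, ∑ i, (bz (y (N.eS s i)) * (if N.src (N.eS s i) = kb z then 1 else 0) +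
        bz (!y (N.eS s i)) * (if N.tgt (N.eS s i) = kb z then 1 else 0))) = 0 := by
    simp only [Fin.sum_univ_two]
    simp [src, tgt]
  have h3 : (∑ v, ∑ i, (bz (y (N.eF v i)) * (if N.src (N.eF v i) = kb z then 1 else 0) +
        bz (!y (N.eF v i)) * (if N.tgt (N.eF v i) = kb z then 1 else 0))) = 0 := by
    simp [src, tgt]
  rw [h1, h2, h3]
  simp [src, tgt]

theorem out_ka (y : N.EV → Bool) (x : Bool × Fin N.κ) :
    out N.src N.tgt y (ka x) = (∑ z, bz (y (N.eK x z))) +
      ∑ v, ∑ i, bz (!y (N.eF v i)) * (if N.tgt (N.eF v i) = ka x then 1 else 0) := by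
  unfold out
  rw [sum_EV]
  have h1 : (∑ r, ∑ i, (bz (y (N.eT r i)) * (if N.src (N.eT r i) = ka x then 1 else 0) +
        bz (!y (N.eT r i)) * (if N.tgt (N.eT r i) = ka x then 1 else 0))) = 0 := by
    simp only [Fin.sum_univ_eight]
    simp [src, tgt]
  have h2 : (∑ s, ∑ i, (bz (y (N.eS s i)) * (if N.src (N.eS s i) = ka x then 1 else 0) +
        bz (!y (N.eS s i)) * (if N.tgt (N.eS s i) = ka x then 1 else 0))) = 0 := by
    simp only [Fin.sum_univ_two]
    simp [src, tgt]
  have h3 : (∑ v, ∑ i, (bz (y (N.eF v i)) * (if N.src (N.eF v i) = ka x then 1 else 0) +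
        bz (!y (N.eF v i)) * (if N.tgt (N.eF v i) = ka x then 1 else 0))) =
      ∑ v, ∑ i, bz (!y (N.eF v i)) * (if N.tgt (N.eF v i) = ka x then 1 else 0) := by
    refine Finset.sum_congr rfl fun v _ => Finset.sum_congr rfl fun i _ => ?_
    have : N.src (N.eF v i) ≠ ka x := by simp [src]
    rw [if_neg this, mul_zero, zero_add]
  have h4 : (∑ x', ∑ z, (bz (y (N.eK x' z)) * (if N.src (N.eK x' z) = ka x then 1 else 0) +
        bz (!y (N.eK x' z)) * (if N.tgt (N.eK x' z) = ka x then 1 else 0))) =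
      ∑ z, bz (y (N.eK x z)) := by
    rw [Finset.sum_eq_single x]
    · simp [src, tgt]
    · intro x' _ hx
      simp [src, tgt, hx]
    · simp
  rw [h1, h2, h3, h4]
  ring

theorem sum_K (y : N.EV → Bool) :
    (∑ x, out N.src N.tgt y (ka x)) + ∑ z, out N.src N.tgt y (kb z) =
      (2 * N.κ) * (2 * N.κ) + nf y := by
  simp only [out_ka, out_kb]
  rw [Finset.sum_add_distrib]
  have h1 : (∑ x : Bool × Fin N.κ, ∑ v, ∑ i,
      bz (!y (N.eF v i)) * (if N.tgt (N.eF v i) = ka x then 1 else 0)) = nf y := by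
    rw [Finset.sum_comm]
    unfold nf
    refine Finset.sum_congr rfl fun v _ => ?_
    rw [Finset.sum_comm]
    refine Finset.sum_congr rfl fun i _ => ?_
    rw [← Finset.mul_sum]
    have : (∑ x : Bool × Fin N.κ, if N.tgt (N.eF v i) = ka x then 1 else 0) = 1 := by
      simp [tgt]
    rw [this, mul_one]
  have h2 : (∑ z : Bool × Fin N.κ, ∑ x : Bool × Fin N.κ, bz (!y (N.eK x z))) =
      ∑ x : Bool × Fin N.κ, ∑ z : Bool × Fin N.κ, bz (!y (N.eK x z)) := Finset.sum_comm
  rw [h1, h2, add_right_comm, ← Finset.sum_add_distrib]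
  congr 1
  have h3 : ∀ x : Bool × Fin N.κ, ((∑ z : Bool × Fin N.κ, bz (y (N.eK x z))) +
      ∑ z : Bool × Fin N.κ, bz (!y (N.eK x z))) = 2 * N.κ := by
    intro x
    rw [← Finset.sum_add_distrib]
    simp [bz_add_not]
  rw [Finset.sum_congr rfl fun x _ => h3 x]
  simp

theorem card_EV : Fintype.card N.EV = 8 * Fintype.card T + 2 * Fintype.card S +
    (∑ v, N.f v) + (2 * N.κ) * (2 * N.κ) := by
  simp only [EV, Fintype.card_sum, Fintype.card_prod, Fintype.card_sigma, Fintype.card_fin,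
    Fintype.card_bool]
  ring

/-- the consequences of the tightness -/
theorem tight_all (h : N.OK) {y : N.EV → Bool} (hy : ∀ v, out N.src N.tgt y v ≤ N.κ) :
    (∀ v, out N.src N.tgt y v = N.κ) ∧ ∀ v i, y (N.eF v i) = true := by
  have h1 := sum_K y
  have h2 : (∑ x : Bool × Fin N.κ, out N.src N.tgt y (ka x)) ≤ 2 * N.κ * N.κ := by
    refine (Finset.sum_le_sum fun x _ => hy _).trans ?_
    simp
  have h3 : (∑ z : Bool × Fin N.κ, out N.src N.tgt y (kb z)) ≤ 2 * N.κ * N.κ := by
    refine (Finset.sum_le_sum fun x _ => hy _).trans ?_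
    simp
  have hq : (2 * N.κ) * (2 * N.κ) = 2 * N.κ * N.κ + 2 * N.κ * N.κ := by ring
  have hnf : nf y = 0 := by omega
  have h4 : (∑ x : Bool × Fin N.κ, out N.src N.tgt y (ka x)) = 2 * N.κ * N.κ := by omega
  have h5 : (∑ z : Bool × Fin N.κ, out N.src N.tgt y (kb z)) = 2 * N.κ * N.κ := by omega
  have h6 : ∑ v : V0 T P S, out N.src N.tgt y (Sum.inl v) = ∑ v : V0 T P S, N.κ := by
    have h7 := sum_out N.src N.tgt y
    rw [Fintype.sum_sum_type, Fintype.sum_sum_type (α₁ := Bool × Fin N.κ)] at h7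
    rw [card_EV] at h7
    have h7' : (∑ v : V0 T P S, out N.src N.tgt y (Sum.inl v)) +
      ((∑ x : Bool × Fin N.κ, out N.src N.tgt y (ka x)) +
        ∑ z : Bool × Fin N.κ, out N.src N.tgt y (kb z)) = 8 * Fintype.card T +
        2 * Fintype.card S + (∑ v, N.f v) + (2 * N.κ) * (2 * N.κ) := h7
    have h8 : ∑ v : V0 T P S, N.κ = ∑ v, (N.f v + N.tar v) :=
      Finset.sum_congr rfl fun v _ => (f_add_tar h v).symm
    rw [h8, Finset.sum_add_distrib, sum_tar h]
    omega
  have h7 := (Finset.sum_eq_sum_iff_of_le (fun v _ => hy (Sum.inl v))).1 h6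
  have h8 := (Finset.sum_eq_sum_iff_of_le (s := (univ : Finset (Bool × Fin N.κ)))
    (f := fun x => out N.src N.tgt y (ka x)) (g := fun _ => N.κ) (fun v _ => hy _)).1
    (by rw [h4]; simp)
  have h9 := (Finset.sum_eq_sum_iff_of_le (s := (univ : Finset (Bool × Fin N.κ)))
    (f := fun x => out N.src N.tgt y (kb x)) (g := fun _ => N.κ) (fun v _ => hy _)).1
    (by rw [h5]; simp)
  constructor
  · rintro (v | x | x)
    · exact h7 v (Finset.mem_univ _)
    · exact h8 x (Finset.mem_univ _)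
    · exact h9 x (Finset.mem_univ _)
  · intro v i
    unfold nf at hnf
    rw [Finset.sum_eq_zero_iff] at hnf
    have h10 := hnf v (Finset.mem_univ _)
    rw [Finset.sum_eq_zero_iff] at h10
    have h11 := h10 i (Finset.mem_univ _)
    cases hyv : y (N.eF v i)
    · rw [hyv] at h11
      simp [bz] at h11
    · rfl

theorem fo_eq {y : N.EV → Bool} (hy : ∀ v i, y (N.eF v i) = true) (v : V0 T P S) :
    N.fo y v = N.f v := by
  unfold fo
  simp [hy, bz]

/-- the cyclically oriented triangles -/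
def bad (y : N.EV → Bool) : Finset T :=
  univ.filter (fun r => y (N.eT r 1) = y (N.eT r 2) ∧ y (N.eT r 0) ≠ y (N.eT r 1))

variable (N) in
/-- solutions -/
def Sol (z : T → Bool) (q : S → Bool) : Prop :=
  ∀ p, (∑ r, (bz (z r) * (if N.α1 r = p then 1 else 0) +
        bz (z r) * (if N.α2 r = p then 1 else 0) +
        bz (!z r) * (if N.β1 r = p then 1 else 0) +
        bz (!z r) * (if N.β2 r = p then 1 else 0))) +
      (∑ s, (bz (q s) * (if N.γ1 s = p then 1 else 0) +
        bz (!q s) * (if N.γ2 s = p then 1 else 0))) = N.τ p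

theorem node_vals (h : N.OK) {y : N.EV → Bool} (hy : ∀ v, out N.src N.tgt y v ≤ N.κ)
    (hb : bad y = ∅) (r : T) :
    y (N.eT r 1) = y (N.eT r 0) ∧ y (N.eT r 2) = y (N.eT r 0) ∧ y (N.eT r 3) = y (N.eT r 0) ∧
    y (N.eT r 4) = y (N.eT r 0) ∧ y (N.eT r 5) = !y (N.eT r 0) ∧ y (N.eT r 6) = !y (N.eT r 0) ∧
    y (N.eT r 7) = !y (N.eT r 0) := by
  obtain ⟨h1, h2⟩ := tight_all h hy
  have hκ := h.hκ
  have ha := h1 (nd r 0)
  have hbb := h1 (nd r 1)
  have hw := h1 (nd r 2)
  have hv := h1 (nd r 3)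
  rw [out_a, fo_eq h2] at ha
  rw [out_b, fo_eq h2] at hbb
  rw [out_w, fo_eq h2] at hw
  rw [out_v, fo_eq h2] at hv
  have fa := f_add_tar h (Sum.inl (r, 0))
  have fb := f_add_tar h (Sum.inl (r, 1))
  have fw := f_add_tar h (Sum.inl (r, 2))
  have fv := f_add_tar h (Sum.inl (r, 3))
  simp only [tar, Matrix.cons_val_zero, Matrix.cons_val_one, Matrix.cons_val] at fa fb fw fv
  have hbr : ¬ (y (N.eT r 1) = y (N.eT r 2) ∧ y (N.eT r 0) ≠ y (N.eT r 1)) := by
    intro hc
    have : r ∈ bad y := by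
      unfold bad
      simp only [Finset.mem_filter, Finset.mem_univ, true_and]
      exact hc
    rw [hb] at this
    simp at this
  have ha' : bz (y (N.eT r 0)) + bz (y (N.eT r 1)) + bz (!y (N.eT r 3)) +
      bz (!y (N.eT r 4)) = 2 := by omega
  have hb' : bz (!y (N.eT r 0)) + bz (!y (N.eT r 2)) + bz (!y (N.eT r 5)) +
      bz (!y (N.eT r 6)) = 2 := by omega
  have hw' : bz (!y (N.eT r 1)) + bz (y (N.eT r 2)) = 1 := by omega
  have hv' : bz (y (N.eT r 6)) + bz (!y (N.eT r 7)) = 1 := by omega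
  revert hbr ha' hb' hw' hv'
  generalize y (N.eT r 0) = y0
  generalize y (N.eT r 1) = y1
  generalize y (N.eT r 2) = y2
  generalize y (N.eT r 3) = y3
  generalize y (N.eT r 4) = y4
  generalize y (N.eT r 5) = y5
  generalize y (N.eT r 6) = y6
  generalize y (N.eT r 7) = y7
  clear * -
  cases y0 <;> cases y1 <;> cases y2 <;> cases y3 <;> cases y4 <;> cases y5 <;> cases y6 <;>
    cases y7 <;> decide

theorem slack_vals (h : N.OK) {y : N.EV → Bool} (hy : ∀ v, out N.src N.tgt y v ≤ N.κ) (s : S) :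
    y (N.eS s 1) = y (N.eS s 0) := by
  obtain ⟨h1, h2⟩ := tight_all h hy
  have hκ := h.hκ
  have ha := h1 (sl s)
  rw [out_s, fo_eq h2] at ha
  have fa := f_add_tar h (Sum.inr (Sum.inr s))
  simp only [tar] at fa
  have ha' : bz (!y (N.eS s 0)) + bz (y (N.eS s 1)) = 1 := by omega
  revert ha'
  generalize y (N.eS s 0) = y0
  generalize y (N.eS s 1) = y1
  clear * -
  cases y0 <;> cases y1 <;> decide

theorem sol_of_good (h : N.OK) {y : N.EV → Bool} (hy : ∀ v, out N.src N.tgt y v ≤ N.κ)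
    (hb : bad y = ∅) : N.Sol (fun r => y (N.eT r 0)) (fun s => y (N.eS s 0)) := by
  obtain ⟨h1, h2⟩ := tight_all h hy
  intro p
  have hp := h1 (pl p)
  rw [out_p, fo_eq h2] at hp
  have fp := f_add_tar h (Sum.inr (Sum.inl p))
  simp only [tar] at fp
  have e1 : (∑ r, (bz (y (N.eT r 3)) * (if N.α1 r = p then 1 else 0) +
        bz (y (N.eT r 4)) * (if N.α2 r = p then 1 else 0) +
        bz (y (N.eT r 5)) * (if N.β1 r = p then 1 else 0) +
        bz (y (N.eT r 7)) * (if N.β2 r = p then 1 else 0))) =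
      ∑ r, (bz (y (N.eT r 0)) * (if N.α1 r = p then 1 else 0) +
        bz (y (N.eT r 0)) * (if N.α2 r = p then 1 else 0) +
        bz (!y (N.eT r 0)) * (if N.β1 r = p then 1 else 0) +
        bz (!y (N.eT r 0)) * (if N.β2 r = p then 1 else 0)) := by
    refine Finset.sum_congr rfl fun r _ => ?_
    obtain ⟨_, _, e3, e4, e5, _, e7⟩ := node_vals h hy hb r
    rw [e3, e4, e5, e7]
  have e2 : (∑ s, (bz (y (N.eS s 0)) * (if N.γ1 s = p then 1 else 0) +
        bz (!y (N.eS s 1)) * (if N.γ2 s = p then 1 else 0))) =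
      ∑ s, (bz (y (N.eS s 0)) * (if N.γ1 s = p then 1 else 0) +
        bz (!y (N.eS s 0)) * (if N.γ2 s = p then 1 else 0)) := by
    refine Finset.sum_congr rfl fun s _ => ?_
    rw [slack_vals h hy s]
  rw [e1, e2] at hp
  beta_reduce
  omega

/-- the orientation of a solution -/
def orient (z : T → Bool) (q : S → Bool) : N.EV → Bool
  | Sum.inl (Sum.inl (r, i)) => ![z r, z r, z r, z r, z r, !z r, !z r, !z r] i
  | Sum.inl (Sum.inr (s, _)) => q s
  | Sum.inr (Sum.inl _) => true
  | Sum.inr (Sum.inr (x, y)) => decide (x.1 = y.1)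

theorem bad_orient (z : T → Bool) (q : S → Bool) : bad (orient (N := N) z q) = ∅ := by
  unfold bad
  ext r
  simp [orient]

theorem out_orient (h : N.OK) {z : T → Bool} {q : S → Bool} (hs : N.Sol z q)
    (v : VV T P S N.κ) : out N.src N.tgt (orient z q) v = N.κ := by
  have hF : ∀ v i, orient z q (N.eF v i) = true := fun _ _ => rfl
  rcases v with (⟨r, i⟩ | p | s) | x | x
  · have h1 := f_add_tar h (Sum.inl (r, i))
    fin_cases i
    · refine (out_a N _ r).trans ?_
      rw [fo_eq hF]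
      rw [← h1]
      simp only [orient, tar]
      simp
      cases z r <;> simp [bz, add_comm]
    · refine (out_b N _ r).trans ?_
      rw [fo_eq hF]
      rw [← h1]
      simp only [orient, tar]
      simp
      cases z r <;> simp [bz, add_comm]
    · refine (out_w N _ r).trans ?_
      rw [fo_eq hF]
      rw [← h1]
      simp only [orient, tar]
      simp
      cases z r <;> simp [bz, add_comm]
    · refine (out_v N _ r).trans ?_
      rw [fo_eq hF]
      rw [← h1]
      simp only [orient, tar]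
      simp
      cases z r <;> simp [bz, add_comm]
  · have h1 := f_add_tar h (Sum.inr (Sum.inl p))
    refine (out_p N _ p).trans ?_
    rw [fo_eq hF, ← h1, add_comm]
    congr 1
    exact hs p
  · have h1 := f_add_tar h (Sum.inr (Sum.inr s))
    refine (out_s N _ s).trans ?_
    rw [fo_eq hF, ← h1, add_comm]
    congr 1
    simp only [orient, tar]
    cases q s <;> simp [bz]
  · refine (out_ka _ x).trans ?_
    have h1 : (∑ v, ∑ i, bz (!orient z q (N.eF v i)) *
        (if N.tgt (N.eF v i) = ka x then 1 else 0)) = 0 := by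
      simp [hF, bz]
    rw [h1, add_zero, Fintype.sum_prod_type]
    simp only [orient]
    obtain ⟨b, j⟩ := x
    cases b <;> simp [bz]
  · refine (out_kb _ x).trans ?_
    rw [Fintype.sum_prod_type]
    simp only [orient]
    obtain ⟨b, j⟩ := x
    cases b <;> simp [bz]

end Net

end Pool.Agent.H697R2.AT
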