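import Pool.Agent.H697R2.AT.Net2

/-!
# The sign-reversing involution and the equivalence with the solutions
-/

set_option autoImplicit false

namespace Pool.Agent.H697R2.AT

open Finset

variable {T P S : Type} [Fintype T] [DecidableEq T] [Fintype P] [DecidableEq P] [Fintype S]
  [DecidableEq S]

namespace Net

noncomputable instance instDEQ (N : Net T P S) : DecidableEq N.EV :=
  Classical.decEq _

variable {N : Net T P S}

/-- the edges of a triangle -/
def mask (r : T) : N.EV → Bool
  | Sum.inl (Sum.inl (r', i)) => decide (r' = r) && decide (i.val < 3)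
  | _ => false

/-- reverse the triangle `r` -/
def flip (r : T) (y : N.EV → Bool) : N.EV → Bool := fun e => xor (y e) (mask r e)

theorem flip_other (r : T) (y : N.EV → Bool) {r' : T} (h : r' ≠ r) (i : Fin 8) :
    flip r y (N.eT r' i) = y (N.eT r' i) := by
  simp [flip, mask, h]

theorem flip_self (r : T) (y : N.EV → Bool) (i : Fin 8) :
    flip r y (N.eT r i) = xor (y (N.eT r i)) (decide (i.val < 3)) := by
  simp [flip, mask]

theorem flip_eS (r : T) (y : N.EV → Bool) (s : S) (i : Fin 2) :
    flip r y (N.eS s i) = y (N.eS s i) := by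
  simp [flip, mask]

theorem flip_eF (r : T) (y : N.EV → Bool) (v : V0 T P S) (i : Fin (N.f v)) :
    flip r y (N.eF v i) = y (N.eF v i) := by
  simp [flip, mask]

theorem flip_eK (r : T) (y : N.EV → Bool) (x z : Bool × Fin N.κ) :
    flip r y (N.eK x z) = y (N.eK x z) := by
  simp [flip, mask]

theorem flip_flip (r : T) (y : N.EV → Bool) : flip r (flip r y) = y := by
  funext e
  simp [flip]

theorem flip_ne (r : T) (y : N.EV → Bool) : flip r y ≠ y := by
  intro h
  have := congrFun h (N.eT r 0)
  rw [flip_self] at this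
  simp at this

theorem bad_flip (r : T) (y : N.EV → Bool) : bad (flip r y) = bad y := by
  unfold bad
  ext r'
  simp only [Finset.mem_filter, Finset.mem_univ, true_and]
  by_cases h : r' = r
  · subst h
    simp only [flip_self]
    simp
  · simp only [flip_other r y h]

theorem out_flip (r : T) (y : N.EV → Bool) (hr : r ∈ bad y) :
    out N.src N.tgt (flip r y) = out N.src N.tgt y := by
  unfold bad at hr
  simp only [Finset.mem_filter, Finset.mem_univ, true_and] at hr
  obtain ⟨h1, h2⟩ := hr
  funext v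
  unfold out
  rw [sum_EV, sum_EV]
  simp only [flip_eS, flip_eF, flip_eK]
  congr 2
  refine Finset.sum_congr rfl fun r' _ => ?_
  by_cases h : r' = r
  · subst h
    simp only [flip_self, Fin.sum_univ_eight]
    have e1 : N.src (N.eT r' 0) = nd r' 0 := rfl
    have e2 : N.src (N.eT r' 1) = nd r' 0 := rfl
    have e3 : N.src (N.eT r' 2) = nd r' 2 := rfl
    have e4 : N.tgt (N.eT r' 0) = nd r' 1 := rfl
    have e5 : N.tgt (N.eT r' 1) = nd r' 2 := rfl
    have e6 : N.tgt (N.eT r' 2) = nd r' 1 := rfl
    rw [e1, e2, e3, e4, e5, e6]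
    generalize hy0 : y (N.eT r' 0) = y0 at *
    generalize hy1 : y (N.eT r' 1) = y1 at *
    generalize hy2 : y (N.eT r' 2) = y2 at *
    subst h1
    cases y0 <;> cases y1
    · exact absurd rfl h2
    · simp [bz]
      ring
    · simp [bz]
      ring
    · exact absurd rfl h2
  · simp only [flip_other r y h]

theorem sg_xor (a b : Bool) : sg (xor a b) = sg a * (if b then -1 else 1) := by
  cases a <;> cases b <;> rfl

theorem prod_mask (r : T) : ∏ e, (if mask (N := N) r e then (-1 : ℤ) else 1) = -1 := by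
  rw [prod_EV]
  have h1 : (∏ s, ∏ i, (if mask (N := N) r (N.eS s i) then (-1 : ℤ) else 1)) = 1 := by
    simp [mask]
  have h2 : (∏ v, ∏ i, (if mask (N := N) r (N.eF v i) then (-1 : ℤ) else 1)) = 1 := by
    simp [mask]
  have h3 : (∏ x, ∏ z, (if mask (N := N) r (N.eK x z) then (-1 : ℤ) else 1)) = 1 := by
    simp [mask]
  have h4 : ∀ r', (∏ i, (if mask (N := N) r (N.eT r' i) then (-1 : ℤ) else 1)) =
      if r' = r then -1 else 1 := by
    intro r'
    simp only [Fin.prod_univ_eight]
    by_cases h : r' = r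
    · subst h
      simp [mask]
    · simp [mask, h]
  rw [h1, h2, h3, Finset.prod_congr rfl fun r' _ => h4 r']
  simp

theorem prod_flip (r : T) (y : N.EV → Bool) :
    ∏ e, sg (flip r y e) = -∏ e, sg (y e) := by
  have : ∀ e, sg (flip r y e) = sg (y e) * (if mask r e then -1 else 1) := fun e => sg_xor _ _
  rw [Finset.prod_congr rfl fun e _ => this e, Finset.prod_mul_distrib, prod_mask]
  ring

/-- the involution -/
noncomputable def invo (y : N.EV → Bool) : N.EV → Bool :=
  open Classical in if h : (bad y).Nonempty then flip h.choose y else y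

theorem choose_congr {B B' : Finset T} (h : B.Nonempty) (h' : B'.Nonempty) (he : B = B') :
    h.choose = h'.choose := by
  subst he
  rfl

theorem SS_eq (d : VV T P S N.κ → ℕ) :
    SS N.src N.tgt d = ∑ y : N.EV → Bool,
      if out N.src N.tgt y = d ∧ bad y = ∅ then ∏ e, sg (y e) else 0 := by
  classical
  have h0 : SS N.src N.tgt d = (∑ y : N.EV → Bool,
      if out N.src N.tgt y = d ∧ bad y = ∅ then ∏ e, sg (y e) else 0) +
      ∑ y : N.EV → Bool,
      if out N.src N.tgt y = d ∧ (bad y).Nonempty then ∏ e, sg (y e) else 0 := by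
    unfold SS
    rw [← Finset.sum_add_distrib]
    refine Finset.sum_congr rfl fun y _ => ?_
    by_cases h1 : out N.src N.tgt y = d
    · rcases Finset.eq_empty_or_nonempty (bad y) with h2 | h2
      · simp [h1, h2]
      · simp [h1, h2, h2.ne_empty]
    · simp [h1]
  have h1 : (∑ y : N.EV → Bool,
      if out N.src N.tgt y = d ∧ (bad y).Nonempty then ∏ e, sg (y e) else 0) = 0 := by
    rw [← Finset.sum_filter]
    refine Finset.sum_involution (fun y _ => invo y) ?_ ?_ ?_ ?_
    · intro y hy
      simp only [Finset.mem_filter, Finset.mem_univ, true_and] at hy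
      unfold invo
      rw [dif_pos hy.2, prod_flip]
      ring
    · intro y hy _
      simp only [Finset.mem_filter, Finset.mem_univ, true_and] at hy
      unfold invo
      rw [dif_pos hy.2]
      exact flip_ne _ _
    · intro y hy
      simp only [Finset.mem_filter, Finset.mem_univ, true_and] at hy ⊢
      unfold invo
      rw [dif_pos hy.2, bad_flip, out_flip _ _ hy.2.choose_spec]
      exact hy
    · intro y hy
      simp only [Finset.mem_filter, Finset.mem_univ, true_and] at hy
      have e1 : invo y = flip hy.2.choose y := by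
        unfold invo
        rw [dif_pos hy.2]
      have hb : bad (invo y) = bad y := by rw [e1, bad_flip]
      have hn : (bad (invo y)).Nonempty := by rw [hb]; exact hy.2
      have e2 : invo (invo y) = flip hn.choose (invo y) := by
        unfold invo
        rw [dif_pos]
      show invo (invo y) = y
      rw [e2, choose_congr hn hy.2 hb, e1, flip_flip]
  rw [h0, h1, add_zero]

theorem prod_sg_good (h : N.OK) {y : N.EV → Bool} (hy : ∀ v, out N.src N.tgt y v ≤ N.κ)
    (hb : bad y = ∅) : ∏ e, sg (y e) = (-1) ^ Fintype.card T := by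
  obtain ⟨h1, h2⟩ := tight_all h hy
  rw [prod_EV]
  have e1 : ∀ r, ∏ i, sg (y (N.eT r i)) = -1 := by
    intro r
    obtain ⟨a1, a2, a3, a4, a5, a6, a7⟩ := node_vals h hy hb r
    rw [Fin.prod_univ_eight, a1, a2, a3, a4, a5, a6, a7]
    cases y (N.eT r 0) <;> rfl
  have e2 : ∀ s, ∏ i, sg (y (N.eS s i)) = 1 := by
    intro s
    rw [Fin.prod_univ_two, slack_vals h hy s]
    cases y (N.eS s 0) <;> rfl
  have e3 : (∏ v, ∏ i, sg (y (N.eF v i))) = 1 := by
    simp [h2, sg]
  have e4 : ∀ x, ∏ z, sg (y (N.eK x z)) = (-1) ^ N.κ := by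
    intro x
    have h3 := h1 (ka x)
    rw [out_ka] at h3
    have h4 : (∑ v, ∑ i, bz (!y (N.eF v i)) *
        (if N.tgt (N.eF v i) = ka x then 1 else 0)) = 0 := by
      simp [h2, bz]
    rw [h4, add_zero] at h3
    have h5 : (∑ z : Bool × Fin N.κ, bz (y (N.eK x z))) +
        ∑ z : Bool × Fin N.κ, bz (!y (N.eK x z)) = 2 * N.κ := by
      rw [← Finset.sum_add_distrib]
      simp [bz_add_not]
    have h6 : ∑ z : Bool × Fin N.κ, bz (!y (N.eK x z)) = N.κ := by omega
    have h7 : ∀ b : Bool, sg b = (-1) ^ (bz (!b)) := by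
      intro b
      cases b <;> rfl
    rw [Finset.prod_congr rfl fun z _ => h7 _, Finset.prod_pow_eq_pow_sum, h6]
  rw [Finset.prod_congr rfl fun r _ => e1 r, Finset.prod_congr rfl fun s _ => e2 s, e3,
    Finset.prod_congr rfl fun x _ => e4 x]
  simp only [Finset.prod_const, Finset.card_univ, one_pow, mul_one, one_mul,
    Fintype.card_prod, Fintype.card_bool, Fintype.card_fin]
  rw [← pow_mul]
  have : (-1 : ℤ) ^ (N.κ * (2 * N.κ)) = 1 := by
    rw [show N.κ * (2 * N.κ) = 2 * (N.κ * N.κ) by ring, pow_mul]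
    simp
  rw [this, mul_one]

/-- **The equivalence.** -/
theorem main (h : N.OK) :
    (∃ d : VV T P S N.κ → ℕ, (∀ v, d v ≤ N.κ) ∧ SS N.src N.tgt d ≠ 0) ↔
      ∃ z q, N.Sol z q := by
  classical
  constructor
  · rintro ⟨d, hd, hS⟩
    rw [SS_eq] at hS
    obtain ⟨y, _, hy⟩ := Finset.exists_ne_zero_of_sum_ne_zero hS
    have h1 : out N.src N.tgt y = d ∧ bad y = ∅ := by
      by_contra hc
      rw [if_neg hc] at hy
      exact hy rfl
    obtain ⟨rfl, hb⟩ := h1
    exact ⟨_, _, sol_of_good h hd hb⟩
  · rintro ⟨z, q, hs⟩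
    refine ⟨fun _ => N.κ, fun _ => le_rfl, ?_⟩
    rw [SS_eq]
    have h1 : ∀ y : N.EV → Bool, (if out N.src N.tgt y = (fun _ => N.κ) ∧ bad y = ∅ then
        ∏ e, sg (y e) else 0) = (-1) ^ Fintype.card T *
        (if out N.src N.tgt y = (fun _ => N.κ) ∧ bad y = ∅ then 1 else 0) := by
      intro y
      split_ifs with h2
      · rw [prod_sg_good h (fun v => (congrFun h2.1 v).le) h2.2, mul_one]
      · rw [mul_zero]
    rw [Finset.sum_congr rfl fun y _ => h1 y, ← Finset.mul_sum]
    refine mul_ne_zero (pow_ne_zero _ (by norm_num)) ?_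
    rw [← Finset.sum_filter]
    simp only [Finset.sum_const, nsmul_eq_mul, mul_one]
    rw [Nat.cast_ne_zero, Finset.card_ne_zero]
    refine ⟨orient z q, ?_⟩
    simp only [Finset.mem_filter, Finset.mem_univ, true_and]
    exact ⟨funext fun v => out_orient h hs v, bad_orient z q⟩

end Net

end Pool.Agent.H697R2.AT
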