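import Pool.Agent.H697R2.AT.Inst
import Pool.Agent.H671R2.PolyAuto

/-!
# The graph of a formula in polynomial time
-/

set_option autoImplicit false

namespace Pool.Agent.NPC.H697AT

open Pool.Agent.NPC Pool.Agent.H697R2.AT Pool.Agent.NPC.R671

abbrev FF : Type := List (Lit ℕ × Lit ℕ × Lit ℕ)

theorem flat_poly : Poly flat := by
  unfold flat
  fun_prop

attribute [fun_prop] flat_poly

theorem Lfun_poly {α : Type} [TEnc α] {L : α → List (Lit ℕ)} {p : α → ℕ} (hL : Poly L)
    (hp : Poly p) : Poly (fun a => Lfun (L a) (p a)) := by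
  unfold Lfun
  fun_prop

attribute [fun_prop] Lfun_poly

theorem lA2_poly {α : Type} [TEnc α] {l : α → Bool × ℕ} {q p : α → ℕ} (hl : Poly l)
    (hq : Poly q) (hp : Poly p) : Poly (fun a => lA2 (l a) (q a) (p a)) := by
  unfold lA2
  fun_prop

theorem lB2_poly {α : Type} [TEnc α] {l : α → Bool × ℕ} {q p : α → ℕ} (hl : Poly l)
    (hq : Poly q) (hp : Poly p) : Poly (fun a => lB2 (l a) (q a) (p a)) := by
  unfold lB2
  fun_prop

attribute [fun_prop] lA2_poly lB2_poly

theorem nodeEdges_poly {α : Type} [TEnc α] {l : α → Bool × ℕ} {n q p : α → ℕ} (hl : Poly l)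
    (hn : Poly n) (hq : Poly q) (hp : Poly p) :
    Poly (fun a => nodeEdges (l a) (n a) (q a) (p a)) := by
  unfold nodeEdges
  fun_prop

theorem slackEdges_poly {α : Type} [TEnc α] {j i : α → ℕ} (hj : Poly j) (hi : Poly i) :
    Poly (fun a => slackEdges (j a) (i a)) := by
  unfold slackEdges
  fun_prop

theorem tarL_poly {α : Type} [TEnc α] {L : α → List (Lit ℕ)} {z : α → Lb} (hL : Poly L)
    (hz : Poly z) : Poly (fun a => tarL (Lfun (L a)) (z a)) := by
  unfold tarL
  fun_prop

attribute [fun_prop] nodeEdges_poly slackEdges_poly tarL_poly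

theorem forcedEdges_poly (κ : ℕ) {α : Type} [TEnc α] {L : α → List (Lit ℕ)} {z : α → Lb}
    (hL : Poly L) (hz : Poly z) : Poly (fun a => forcedEdges κ (Lfun (L a)) (z a)) := by
  unfold forcedEdges
  have h1 : Poly (fun _ : α => List.range κ) := Poly.const _
  fun_prop

attribute [fun_prop] forcedEdges_poly

theorem range3_poly : Poly (fun φ : FF => List.range (φ.length * 3)) :=
  ((UPoly.length Poly.id).mul (UPoly.const 3)).range

theorem range1_poly : Poly (fun φ : FF => List.range φ.length) :=
  (UPoly.length Poly.id).range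

attribute [fun_prop] range3_poly range1_poly

theorem vlist0_poly : Poly (fun φ : FF => vlist0 φ.length) := by
  unfold vlist0
  have h1 : Poly (fun _ : FF => List.range 6) := Poly.const _
  have h2 : Poly (fun _ : FF => ([6, 7] : List ℕ)) := Poly.const _
  have h3 : Poly (fun _ : FF => List.range 3) := Poly.const _
  fun_prop

attribute [fun_prop] vlist0_poly

theorem vlist_poly (κ : ℕ) : Poly (fun φ : FF => vlist κ φ.length) := by
  unfold vlist
  have h1 : Poly (fun _ : FF => (([8, 9] : List ℕ) ×ˢ (List.range 2 ×ˢ List.range κ))) :=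
    Poly.const _
  fun_prop

attribute [fun_prop] vlist_poly

theorem edgeList_poly (κ : ℕ) : Poly (fun φ : FF => edgeList κ φ.length (Lfun (flat φ))) := by
  unfold edgeList
  have h1 : Poly (fun _ : FF => coreEdges κ) := Poly.const _
  have h3 : Poly (fun _ : FF => List.range 3) := Poly.const _
  fun_prop

attribute [fun_prop] edgeList_poly

theorem adL_poly {α : Type} [TEnc α] {E : α → List (Lb × Lb)} {x y : α → Lb} (hE : Poly E)
    (hx : Poly x) (hy : Poly y) : Poly (fun a => adL (E a) (x a) (y a)) := by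
  unfold adL
  fun_prop

attribute [fun_prop] adL_poly

/-- the adjacency matrix of the graph of a formula -/
def mat (κ : ℕ) (φ : FF) : List (List Bool) :=
  (vlist κ φ.length).map (fun u => (vlist κ φ.length).map (fun w =>
    adL (edgeList κ φ.length (Lfun (flat φ))) u w))

theorem mat_poly (κ : ℕ) : Poly (mat κ) := by
  unfold mat
  refine Poly.map (F := fun (φ : FF) (u : Lb) => (vlist κ φ.length).map (fun w =>
    adL (edgeList κ φ.length (Lfun (flat φ))) u w)) (vlist_poly κ) ?_
  refine Poly.map (l := fun p : FF × Lb => vlist κ p.1.length) (F := fun (p : FF × Lb) (w : Lb) =>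
    adL (edgeList κ p.1.length (Lfun (flat p.1))) p.2 w) ?_ ?_
  · exact (vlist_poly κ).comp (Poly.fst Poly.id)
  · exact adL_poly ((edgeList_poly κ).comp (Poly.fst (Poly.fst Poly.id)))
      (Poly.snd (Poly.fst Poly.id)) (Poly.snd Poly.id)

theorem adjMatrix_grF (κ : ℕ) (φ : FF) : adjMatrix (grF κ φ) = mat κ φ := by
  unfold grF gr
  rw [adjMatrix_listGraph]
  rfl

end Pool.Agent.NPC.H697AT
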