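import Pool.Agent.H697R2.AT.Net3

/-!
# The graph of a network is simple
-/

set_option autoImplicit false

namespace Pool.Agent.H697R2.AT

variable {T P S : Type} [Fintype T] [DecidableEq T] [Fintype P] [DecidableEq P] [Fintype S]
  [DecidableEq S]

namespace Net

variable {N : Net T P S}

theorem simple_ne (h : N.OK) (e : N.EV) : N.src e ≠ N.tgt e := by
  rcases e with (⟨r, i⟩ | ⟨s, i⟩) | (⟨v, i⟩ | ⟨x, y⟩)
  · fin_cases i <;> simp [src, tgt]
  · fin_cases i <;> simp [src, tgt]
  · simp [src, tgt]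
  · simp [src, tgt]

theorem simple_inj1 (h : N.OK) (e e' : N.EV) (h1 : N.src e = N.src e')
    (h2 : N.tgt e = N.tgt e') : e = e' := by
  rcases e with (⟨r, i⟩ | ⟨s, i⟩) | (⟨v, i⟩ | ⟨x, y⟩) <;>
  rcases e' with (⟨r', i'⟩ | ⟨s', i'⟩) | (⟨v', i'⟩ | ⟨x', y'⟩)
  · fin_cases i <;> fin_cases i' <;> simp_all [src, tgt]
    · exact absurd h1 (h.hα _)
    · exact absurd h1.symm (h.hα _)
  · fin_cases i <;> fin_cases i' <;> simp_all [src, tgt]
  · fin_cases i <;> simp_all [src, tgt]
  · fin_cases i <;> simp_all [src, tgt]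
  · fin_cases i <;> fin_cases i' <;> simp_all [src, tgt]
  · fin_cases i <;> fin_cases i' <;> simp_all [src, tgt]
  · fin_cases i <;> simp_all [src, tgt]
  · fin_cases i <;> simp_all [src, tgt]
  · fin_cases i' <;> simp_all [src, tgt]
  · fin_cases i' <;> simp_all [src, tgt]
  · simp only [src, tgt, Sum.inl.injEq, Sum.inr.injEq, Prod.mk.injEq, true_and] at h1 h2
    subst h1
    have h3 : i = i' := Fin.castLE_injective _ h2
    rw [h3]
  · simp_all [src, tgt]
  · fin_cases i' <;> simp_all [src, tgt]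
  · fin_cases i' <;> simp_all [src, tgt]
  · simp_all [src, tgt]
  · simp only [src, tgt, Sum.inl.injEq, Sum.inr.injEq] at h1 h2
    rw [h1, h2]

theorem simple_inj2 (h : N.OK) (e e' : N.EV) (h1 : N.src e = N.tgt e')
    (h2 : N.tgt e = N.src e') : e = e' := by
  exfalso
  rcases e with (⟨r, i⟩ | ⟨s, i⟩) | (⟨v, i⟩ | ⟨x, y⟩) <;>
  rcases e' with (⟨r', i'⟩ | ⟨s', i'⟩) | (⟨v', i'⟩ | ⟨x', y'⟩)
  · fin_cases i <;> fin_cases i' <;> simp_all [src, tgt]
  · fin_cases i <;> fin_cases i' <;> simp_all [src, tgt]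
  · fin_cases i <;> simp_all [src, tgt]
  · fin_cases i <;> simp_all [src, tgt]
  · fin_cases i <;> fin_cases i' <;> simp_all [src, tgt]
  · fin_cases i <;> fin_cases i' <;> simp_all [src, tgt]
    · exact h.hγ _ h1
    · exact h.hγ _ h2.symm
  · fin_cases i <;> simp_all [src, tgt]
  · fin_cases i <;> simp_all [src, tgt]
  · fin_cases i' <;> simp_all [src, tgt]
  · fin_cases i' <;> simp_all [src, tgt]
  · simp_all [src, tgt]
  · simp_all [src, tgt]
  · fin_cases i' <;> simp_all [src, tgt]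
  · fin_cases i' <;> simp_all [src, tgt]
  · simp_all [src, tgt]
  · simp_all [src, tgt]

theorem simple (h : N.OK) : Simple N.src N.tgt where
  ne := simple_ne h
  inj1 := simple_inj1 h
  inj2 := simple_inj2 h

end Net

end Pool.Agent.H697R2.AT
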