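import Pool.Agent.H697R2.AT.Defs

/-!
# Signed sums over the orientations with given out-degrees
-/

set_option autoImplicit false

namespace Pool.Agent.H697R2.AT

open Finset

section basic

variable {V E : Type} [Fintype V] [DecidableEq V] [Fintype E] [DecidableEq E]

/-- `1` for true and `0` for false -/
def bz (b : Bool) : ℕ := if b then 1 else 0

/-- `1` for true and `-1` for false -/
def sg (b : Bool) : ℤ := if b then 1 else -1

/-- out-degree of `v` if the edge `e` is directed from `s e` to `t e` iff `x e` is true -/
def out (s t : E → V) (x : E → Bool) (v : V) : ℕ :=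
  ∑ e, (bz (x e) * (if s e = v then 1 else 0) + bz (!x e) * (if t e = v then 1 else 0))

/-- the signed sum -/
def SS (s t : E → V) (d : V → ℕ) : ℤ :=
  ∑ x : E → Bool, if out s t x = d then ∏ e, sg (x e) else 0

/-- the arc of an edge -/
def arc (s t : E → V) (x : E → Bool) (e : E) : V × V := if x e then (s e, t e) else (t e, s e)

/-- all the arcs -/
def arcs (s t : E → V) (x : E → Bool) : Finset (V × V) := univ.image (arc s t x)

theorem arc_not (s t : E → V) (x y : E → Bool) (e : E) (h : y e ≠ x e) :
    arc s t y e = (arc s t x e).swap := by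
  unfold arc
  cases hx : x e <;> cases hy : y e <;> simp_all

theorem arc_eq (s t : E → V) (x y : E → Bool) (e : E) (h : y e = x e) :
    arc s t y e = arc s t x e := by
  unfold arc
  rw [h]

theorem out_eq (s t : E → V) (x : E → Bool) (v : V) :
    out s t x v = ∑ e, if (arc s t x e).1 = v then 1 else 0 := by
  unfold out
  refine Finset.sum_congr rfl fun e _ => ?_
  unfold arc bz
  cases x e <;> simp

structure Simple (s t : E → V) : Prop where
  ne : ∀ e, s e ≠ t e
  inj1 : ∀ e e', s e = s e' → t e = t e' → e = e'
  inj2 : ∀ e e', s e = t e' → t e = s e' → e = e'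

variable {s t : E → V}

theorem Simple.arc_inj (h : Simple s t) (x : E → Bool) : Function.Injective (arc s t x) := by
  intro e e' he
  unfold arc at he
  cases hx : x e <;> cases hy : x e' <;> rw [hx, hy] at he <;> simp at he
  · exact h.inj1 _ _ he.2 he.1
  · exact h.inj2 _ _ he.2 he.1
  · exact h.inj2 _ _ he.1 he.2
  · exact h.inj1 _ _ he.1 he.2

theorem outDeg_image (h : Simple s t) (x : E → Bool) (X : Finset E) (v : V) :
    outDeg (X.image (arc s t x)) v = ∑ e ∈ X, if (arc s t x e).1 = v then 1 else 0 := by
  unfold outDeg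
  rw [Finset.filter_image, Finset.card_image_of_injective _ (h.arc_inj x), Finset.card_filter]

theorem inDeg_image (h : Simple s t) (x : E → Bool) (X : Finset E) (v : V) :
    inDeg (X.image (arc s t x)) v = ∑ e ∈ X, if (arc s t x e).2 = v then 1 else 0 := by
  unfold inDeg
  rw [Finset.filter_image, Finset.card_image_of_injective _ (h.arc_inj x), Finset.card_filter]

theorem outDeg_arcs (h : Simple s t) (x : E → Bool) (v : V) :
    outDeg (arcs s t x) v = out s t x v := by
  unfold arcs
  rw [outDeg_image h, out_eq]

/-- The key identity: the change of the out-degrees. -/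
theorem out_change (h : Simple s t) (x y : E → Bool) (v : V) :
    out s t y v + outDeg ((univ.filter (fun e => y e ≠ x e)).image (arc s t x)) v =
      out s t x v + inDeg ((univ.filter (fun e => y e ≠ x e)).image (arc s t x)) v := by
  rw [outDeg_image h, inDeg_image h, out_eq, out_eq, Finset.sum_filter, Finset.sum_filter,
    ← Finset.sum_add_distrib, ← Finset.sum_add_distrib]
  refine Finset.sum_congr rfl fun e _ => ?_
  by_cases hxy : y e = x e
  · simp [hxy, arc_eq s t x y e hxy]
  · rw [arc_not s t x y e hxy]
    simp [hxy, add_comm]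

theorem eulerian_iff (h : Simple s t) (x y : E → Bool) :
    IsEulerian ((univ.filter (fun e => y e ≠ x e)).image (arc s t x)) ↔
      out s t y = out s t x := by
  unfold IsEulerian
  constructor
  · intro hE
    funext v
    have h1 := out_change h x y v
    have h2 := hE v
    omega
  · intro hE v
    have h1 := out_change h x y v
    rw [hE] at h1
    omega

theorem neg_one_pow_diff (x y : E → Bool) :
    ((-1 : ℤ)) ^ (univ.filter (fun e => y e ≠ x e)).card = (∏ e, sg (x e)) * ∏ e, sg (y e) := by
  rw [← Finset.prod_mul_distrib, ← Finset.prod_const, Finset.prod_filter]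
  refine Finset.prod_congr rfl fun e _ => ?_
  unfold sg
  cases x e <;> cases y e <;> simp

theorem EE_sub_EO (D : Finset (V × V)) :
    open Classical in
    (EE D : ℤ) - EO D = ∑ F ∈ D.powerset, if IsEulerian F then (-1 : ℤ) ^ F.card else 0 := by
  classical
  unfold EE EO
  rw [Finset.card_filter, Finset.card_filter]
  push_cast
  rw [← Finset.sum_sub_distrib]
  refine Finset.sum_congr rfl fun F _ => ?_
  by_cases hF : IsEulerian F
  · rcases Nat.even_or_odd F.card with he | ho
    · have : ¬ Odd F.card := by rwa [Nat.not_odd_iff_even]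
      simp [hF, he, this, he.neg_one_pow]
    · have : ¬ Even F.card := by rwa [Nat.not_even_iff_odd]
      simp [hF, ho, this, ho.neg_one_pow]
  · simp [hF]

theorem EE_sub_EO_arcs (h : Simple s t) (x : E → Bool) :
    (EE (arcs s t x) : ℤ) - EO (arcs s t x) = (∏ e, sg (x e)) * SS s t (out s t x) := by
  classical
  rw [EE_sub_EO]
  unfold SS
  rw [Finset.mul_sum]
  symm
  refine Finset.sum_nbij' (fun y => (univ.filter (fun e => y e ≠ x e)).image (arc s t x))
    (fun F e => if arc s t x e ∈ F then !(x e) else x e) ?_ ?_ ?_ ?_ ?_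
  · intro y _
    rw [Finset.mem_powerset]
    exact Finset.image_subset_image (Finset.subset_univ _)
  · intro F _
    exact Finset.mem_univ _
  · intro y _
    funext e
    have : arc s t x e ∈ (univ.filter (fun e => y e ≠ x e)).image (arc s t x) ↔ y e ≠ x e := by
      rw [Finset.mem_image]
      constructor
      · rintro ⟨e', he', hee⟩
        rw [h.arc_inj x hee] at he'
        simpa using he'
      · intro he
        exact ⟨e, by simpa using he, rfl⟩
    simp only [this]
    cases hx : x e <;> cases hy : y e <;> simp
  · intro F hF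
    rw [Finset.mem_powerset] at hF
    ext a
    simp only [Finset.mem_image, Finset.mem_filter, Finset.mem_univ, true_and]
    constructor
    · rintro ⟨e, he, rfl⟩
      by_contra hc
      rw [if_neg hc] at he
      exact he rfl
    · intro ha
      have h1 := hF ha
      unfold arcs at h1
      rw [Finset.mem_image] at h1
      obtain ⟨e, _, rfl⟩ := h1
      refine ⟨e, ?_, rfl⟩
      rw [if_pos ha]
      cases x e <;> simp
  · intro y _
    simp only [eulerian_iff h x y]
    rw [Finset.card_image_of_injective _ (h.arc_inj x), neg_one_pow_diff]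
    split_ifs <;> simp

/-- `G` is the graph with the indexed edges. -/
def Rep (G : SimpleGraph V) (s t : E → V) : Prop :=
  ∀ u v, G.Adj u v ↔ ∃ e, (s e = u ∧ t e = v) ∨ (s e = v ∧ t e = u)

theorem isOrientation_arcs (h : Simple s t) {G : SimpleGraph V} (hG : Rep G s t)
    (x : E → Bool) : IsOrientation G (arcs s t x) := by
  have hmem : ∀ a, a ∈ arcs s t x ↔ ∃ e, arc s t x e = a := by
    intro a
    unfold arcs
    simp
  constructor
  · intro a ha
    obtain ⟨e, rfl⟩ := (hmem a).1 ha
    rw [hG]
    refine ⟨e, ?_⟩
    unfold arc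
    cases x e <;> simp
  · intro u v huv
    obtain ⟨e, he⟩ := (hG u v).1 huv
    rw [hmem, hmem]
    constructor
    · rintro ⟨e1, he1⟩ ⟨e2, he2⟩
      have : arc s t x e1 = (arc s t x e2).swap := by rw [he1, he2]; rfl
      have hee : e1 = e2 := by
        unfold arc at this
        cases hx : x e1 <;> cases hy : x e2 <;> rw [hx, hy] at this <;> simp at this
        · exact h.inj2 _ _ this.2 this.1
        · exact h.inj1 _ _ this.2 this.1
        · exact h.inj1 _ _ this.1 this.2
        · exact h.inj2 _ _ this.1 this.2
      subst hee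
      rw [he1] at he2
      have h3 : u ≠ v := huv.ne
      simp only [Prod.mk.injEq] at he2
      exact h3 he2.1
    · intro hn
      refine ⟨e, ?_⟩
      by_contra hc
      refine hn ⟨e, ?_⟩
      unfold arc at hc ⊢
      rcases he with ⟨rfl, rfl⟩ | ⟨rfl, rfl⟩
      · cases hx : x e
        · simp
        · rw [hx] at hc
          simp at hc
      · cases hx : x e
        · rw [hx] at hc
          simp at hc
        · simp

theorem exists_arcs (h : Simple s t) {G : SimpleGraph V} (hG : Rep G s t)
    {D : Finset (V × V)} (hD : IsOrientation G D) : ∃ x, D = arcs s t x := by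
  refine ⟨fun e => decide ((s e, t e) ∈ D), ?_⟩
  obtain ⟨hD1, hD2⟩ := hD
  ext a
  unfold arcs
  simp only [Finset.mem_image, Finset.mem_univ, true_and]
  constructor
  · intro ha
    obtain ⟨e, he⟩ := (hG _ _).1 (hD1 a ha)
    refine ⟨e, ?_⟩
    unfold arc
    rcases he with ⟨h1, h2⟩ | ⟨h1, h2⟩
    · have : (s e, t e) = a := by rw [h1, h2]
      have h3 : (s e, t e) ∈ D := by rw [this]; exact ha
      simp only [h3, decide_true, if_true]
      exact this
    · have h3 : (t e, s e) = a := by rw [h1, h2]
      have h4 : (s e, t e) ∉ D := by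
        rw [← h3] at ha
        have h5 := hD2 (t e) (s e) ((hG _ _).2 ⟨e, Or.inr ⟨rfl, rfl⟩⟩)
        exact h5.1 ha
      simp [h4, h3]
  · rintro ⟨e, rfl⟩
    unfold arc
    by_cases hx : (s e, t e) ∈ D
    · simp [hx]
    · simp only [hx, decide_false, Bool.false_eq_true, if_false]
      have h5 := hD2 (t e) (s e) ((hG _ _).2 ⟨e, Or.inr ⟨rfl, rfl⟩⟩)
      exact h5.2 hx

theorem good_iff (h : Simple s t) {G : SimpleGraph V} (hG : Rep G s t) (k : ℕ) :
    (∃ D, Good G k D) ↔ ∃ d : V → ℕ, (∀ v, d v + 1 ≤ k) ∧ SS s t d ≠ 0 := by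
  have hprod : ∀ x : E → Bool, (∏ e, sg (x e)) ≠ 0 := by
    intro x
    rw [Finset.prod_ne_zero_iff]
    intro e _
    unfold sg
    cases x e <;> simp
  constructor
  · rintro ⟨D, hD, hE, hk⟩
    obtain ⟨x, rfl⟩ := exists_arcs h hG hD
    refine ⟨out s t x, fun v => ?_, fun h0 => hE ?_⟩
    · rw [← outDeg_arcs h]
      exact hk v
    · have := EE_sub_EO_arcs h x
      rw [h0] at this
      simp only [mul_zero] at this
      omega
  · rintro ⟨d, hd, hS⟩
    obtain ⟨x, _, hx⟩ := Finset.exists_ne_zero_of_sum_ne_zero hS
    have hx' : out s t x = d := by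
      by_contra hc
      rw [if_neg hc] at hx
      exact hx rfl
    subst hx'
    refine ⟨arcs s t x, isOrientation_arcs h hG x, fun hEE => ?_, fun v => ?_⟩
    · have := EE_sub_EO_arcs h x
      rw [hEE, sub_self] at this
      rcases mul_eq_zero.1 this.symm with h0 | h0
      · exact hprod x h0
      · exact hS h0
    · rw [outDeg_arcs h]
      exact hd v

end basic

end Pool.Agent.H697R2.AT
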